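import Mathlib

/-!
# The statement: which indecomposable `𝔽₂[C₂ × C₂]`-modules are direct summands of `Cl(K)[2]`
for a biquadratic field `K` (`MP_282bb6_nt`)
-/

namespace Pool.Agent.Helper69.BQ

open Module NumberField

/-- The group `C₂ × C₂`, written multiplicatively. -/
abbrev C22 : Type := Multiplicative (ZMod 2 × ZMod 2)

/-- A representation over `𝔽₂` is indecomposable if it is nonzero and not the direct sum of two
nonzero stable subspaces. -/
def Indecomposable {G V : Type} [Group G] [AddCommGroup V] [Module (ZMod 2) V]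
    (ρ : Representation (ZMod 2) G V) : Prop :=
  Nontrivial V ∧ ∀ p q : Submodule (ZMod 2) V, (∀ g, ∀ v ∈ p, ρ g v ∈ p) →
    (∀ g, ∀ v ∈ q, ρ g v ∈ q) → IsCompl p q → p = ⊥ ∨ q = ⊥

/-- The intersection of the images of the maps `v ↦ v + g v`, `g ≠ 1`. -/
def repCore {V : Type} [AddCommGroup V] [Module (ZMod 2) V]
    (ρ : Representation (ZMod 2) C22 V) : Submodule (ZMod 2) V :=
  ⨅ g : {g : C22 // g ≠ 1}, LinearMap.range (LinearMap.id + ρ g)

/-- The action of an automorphism of `K` on the class group of the ring of integers of `K`. -/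
noncomputable def galAct {K : Type} [Field K] [NumberField K] (g : K ≃ₐ[ℚ] K) :
    ClassGroup (𝓞 K) ≃* ClassGroup (𝓞 K) :=
  ClassGroup.mulEquiv (RingOfIntegers.mapRingEquiv g.toRingEquiv)

/-- Let `C₂ × C₂` act on the commutative group `C` by `α`. The representation `ρ` over `𝔽₂` is
isomorphic to a direct summand of `C[2] = {x | x² = 1}`: there are an injective equivariant
homomorphism `i` of the underlying group of `ρ` to `C` and a stable subgroup `N` of `C` such that
`C[2]` is the direct product of the image of `i` and `N`. -/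
def IsSummand {C V : Type} [CommGroup C] [AddCommGroup V] [Module (ZMod 2) V]
    (α : C22 → C ≃* C) (ρ : Representation (ZMod 2) C22 V) : Prop :=
  ∃ (i : Multiplicative V →* C) (N : Subgroup C), Function.Injective i ∧
    (∀ (g : C22) (v : V), i (Multiplicative.ofAdd (ρ g v)) = α g (i (Multiplicative.ofAdd v))) ∧
    (∀ g : C22, ∀ x ∈ N, α g x ∈ N) ∧
    i.range ⊓ N = ⊥ ∧ ∀ x : C, x ∈ i.range ⊔ N ↔ x ^ 2 = 1

/-- `ρ` arises from the number field `K`: `K` is Galois over `ℚ` and there is an isomorphism `φ` of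
`C₂ × C₂` with its Galois group such that `ρ` is isomorphic to a direct summand of the 2-torsion of
the class group of `K`. -/
def ArisesFrom {V : Type} [AddCommGroup V] [Module (ZMod 2) V] (K : Type) [Field K]
    [NumberField K] (ρ : Representation (ZMod 2) C22 V) : Prop :=
  IsGalois ℚ K ∧ ∃ φ : C22 ≃* (K ≃ₐ[ℚ] K), IsSummand (fun g => galAct (φ g)) ρ

/-- `ρ` arises from some number field. -/
def Arises {V : Type} [AddCommGroup V] [Module (ZMod 2) V]
    (ρ : Representation (ZMod 2) C22 V) : Prop :=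
  ∃ (K : Type) (_ : Field K) (_ : NumberField K), ArisesFrom K ρ

/-- The companion matrix of the polynomial `xⁿ + c_{n-1} xⁿ⁻¹ + … + c₀` over `𝔽₂`. -/
def companion {n : ℕ} (c : Fin n → ZMod 2) : Matrix (Fin n) (Fin n) (ZMod 2) :=
  Matrix.of fun i j => if (j : ℕ) + 1 = n then c i else if (i : ℕ) = j + 1 then 1 else 0

/-- The list of the 24 pairs of matrices. -/
inductive Listed : (m n : ℕ) → Matrix (Fin n) (Fin m) (ZMod 2) →
    Matrix (Fin n) (Fin m) (ZMod 2) → Prop
  /-- The matrices `(1 0)` and `(0 1)` with `n` rows: the module `Ωⁿ(𝔽₂)`, of dimension `2n + 1`,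
  `0 ≤ n ≤ 5`. -/
  | I (n : ℕ) (hn : n ≤ 5) : Listed (n + 1) n
      (Matrix.of fun i j => if j = i.castSucc then 1 else 0)
      (Matrix.of fun i j => if j = i.succ then 1 else 0)
  /-- The transposed matrices with `n` columns: the module `Ω⁻ⁿ(𝔽₂)`, of dimension `2n + 1`,
  `1 ≤ n ≤ 7`. -/
  | P (n : ℕ) (h1 : 1 ≤ n) (hn : n ≤ 7) : Listed n (n + 1)
      (Matrix.of fun i j => if i = j.castSucc then 1 else 0)
      (Matrix.of fun i j => if i = j.succ then 1 else 0)
  /-- The identity matrix and the companion matrix of `xⁿ`: dimension `2n`, `1 ≤ n ≤ 6`. -/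
  | N (n : ℕ) (h1 : 1 ≤ n) (hn : n ≤ 6) : Listed n n 1 (companion 0)
  /-- The identity matrix and the companion matrix of `x² + x + 1`: dimension 4. -/
  | R7 : Listed 2 2 1 (companion ![1, 1])
  /-- The identity matrix and the companion matrix of `x³ + x + 1`: dimension 6. -/
  | R11 : Listed 3 3 1 (companion ![1, 1, 0])
  /-- The identity matrix and the companion matrix of `x⁴ + x + 1`: dimension 8. -/
  | R19 : Listed 4 4 1 (companion ![1, 1, 0, 0])
  /-- The identity matrix and the companion matrix of `x⁴ + x² + 1 = (x² + x + 1)²`: dimension 8. -/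
  | R21 : Listed 4 4 1 (companion ![1, 0, 1, 0])
  /-- The identity matrix and the companion matrix of `x⁵ + x² + 1`: dimension 10. -/
  | R37 : Listed 5 5 1 (companion ![1, 0, 1, 0, 0])

/-- `ρ` is isomorphic to the representation of `C₂ × C₂` on `U × W` for which `(a, b)` acts by
`(u, w) ↦ (u, w + a A u + b B u)`. -/
def OfPair {V U W : Type} [AddCommGroup V] [Module (ZMod 2) V] [AddCommGroup U]
    [Module (ZMod 2) U] [AddCommGroup W] [Module (ZMod 2) W] (A B : U →ₗ[ZMod 2] W)
    (ρ : Representation (ZMod 2) C22 V) : Prop :=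
  ∃ e : V →ₗ[ZMod 2] U × W, Function.Bijective e ∧
    ∀ (a b : ZMod 2) (v : V), e (ρ (Multiplicative.ofAdd (a, b)) v) =
      ((e v).1, (e v).2 + a • A (e v).1 + b • B (e v).1)

/-- `ρ` is, up to a twist by an automorphism `θ` of `C₂ × C₂`, isomorphic to the representation of
a pair of matrices of the list. -/
def OnList {V : Type} [AddCommGroup V] [Module (ZMod 2) V]
    (ρ : Representation (ZMod 2) C22 V) : Prop :=
  ∃ (m n : ℕ) (A B : Matrix (Fin n) (Fin m) (ZMod 2)) (θ : C22 ≃* C22), Listed m n A B ∧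
    OfPair A.mulVecLin B.mulVecLin (MonoidHom.comp ρ θ.toMonoidHom)

end Pool.Agent.Helper69.BQ
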