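import Mathlib
import Pool.Agent.Helper25.V4
import Pool.Agent.Helper69.BQ.Basic

/-!
# Definitions for the existence part (`MP_282bb6_nt`, project BQ)
-/

namespace Pool.Agent.Helper69.BQ

open Module NumberField Pool.Agent.Helper25.Biq

/-- The operator `v ↦ v + g v`. -/
def op {V : Type} [AddCommGroup V] [Module (ZMod 2) V] (ρ : Representation (ZMod 2) C22 V)
    (a b : ZMod 2) : V →ₗ[ZMod 2] V := LinearMap.id + ρ (Multiplicative.ofAdd (a, b))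

/-! ### Rational numbers: parity of the valuation and quadratic character of the unit part -/

/-- The `p`-adic valuation modulo 2. -/
def vv (p : ℕ) (a : ℚ) : ZMod 2 := ((padicValRat p a : ℤ) : ZMod 2)

/-- For `n ≠ 0`: is the `p`-adic unit part of `n` a nonsquare modulo `p`? -/
def xi (p : ℕ) (n : ℤ) : ZMod 2 :=
  if jacobiSym (n / (p : ℤ) ^ padicValInt p n) p = -1 then 1 else 0

/-- For `a ≠ 0`: is the `p`-adic unit part of `a` a nonsquare modulo `p`? -/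
def xx (p : ℕ) (a : ℚ) : ZMod 2 := xi p (a.num * a.den)

/-- `g` is a value of the form `x² - d y²` over `ℚ`. -/
def IsNm (d : ℤ) (g : ℚ) : Prop := ∃ x y : ℚ, g = x ^ 2 - d * y ^ 2

/-! ### The field data -/

/-- Conditions on the three numbers `g12, g13, g23`. -/
structure Arith (g12 g13 g23 : ℤ) : Prop where
  pos12 : 0 < g12
  pos13 : 0 < g13
  pos23 : 0 < g23
  sqf : Squarefree (g12 * g13 * g23)
  n1 : ∃ q : ℕ, q.Prime ∧ q % 4 = 3 ∧ (q : ℤ) ∣ g12 * g13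
  n2 : ∃ q : ℕ, q.Prime ∧ q % 4 = 3 ∧ (q : ℤ) ∣ g12 * g23
  n3 : ∃ q : ℕ, q.Prime ∧ q % 4 = 3 ∧ (q : ℤ) ∣ g13 * g23

/-- A biquadratic field with its automorphisms and square roots: `σ` fixes
`s1 = √(g12 g13)`, `τ` fixes `s2 = √(g12 g23)`, `ρ` fixes `s3 = √(g13 g23)`. -/
structure Dat (K : Type) [Field K] [NumberField K] (g12 g13 g23 : ℤ) where
  σ : K ≃ₐ[ℚ] K
  τ : K ≃ₐ[ℚ] K
  ρ : K ≃ₐ[ℚ] K
  v4 : V4 σ τ ρ
  s1 : K
  s2 : K
  s3 : K
  q1 : s1 ^ 2 = ((g12 * g13 : ℤ) : K)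
  q2 : s2 ^ 2 = ((g12 * g23 : ℤ) : K)
  q3 : s3 ^ 2 = ((g13 * g23 : ℤ) : K)
  e12 : s1 * s2 = (g12 : K) * s3
  e13 : s1 * s3 = (g13 : K) * s2
  e23 : s2 * s3 = (g23 : K) * s1
  σ1 : σ s1 = s1
  σ2 : σ s2 = -s2
  σ3 : σ s3 = -s3
  τ1 : τ s1 = -s1
  τ2 : τ s2 = s2
  τ3 : τ s3 = -s3
  ρ1 : ρ s1 = -s1
  ρ2 : ρ s2 = -s2
  ρ3 : ρ s3 = s3
  real : ∃ φ : K →+* ℂ, ComplexEmbedding.IsReal φ

namespace Dat

variable {K : Type} [Field K] [NumberField K] {g12 g13 g23 : ℤ}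

/-- Cyclic change of the roles of the three quadratic subfields. -/
def rot (D : Dat K g12 g13 g23) : Dat K g23 g12 g13 where
  σ := D.τ
  τ := D.ρ
  ρ := D.σ
  v4 := D.v4.rot
  s1 := D.s2
  s2 := D.s3
  s3 := D.s1
  q1 := by rw [D.q2, mul_comm]
  q2 := by rw [D.q3, mul_comm]
  q3 := D.q1
  e12 := D.e23
  e13 := by rw [mul_comm, D.e12]
  e23 := by rw [mul_comm, D.e13]
  σ1 := D.τ2
  σ2 := D.τ3
  σ3 := D.τ1
  τ1 := D.ρ2
  τ2 := D.ρ3
  τ3 := D.ρ1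
  ρ1 := D.σ2
  ρ2 := D.σ3
  ρ3 := D.σ1
  real := D.real

/-- Exchange of the first two quadratic subfields. -/
def swap (D : Dat K g12 g13 g23) : Dat K g12 g23 g13 where
  σ := D.τ
  τ := D.σ
  ρ := D.ρ
  v4 := D.v4.swap
  s1 := D.s2
  s2 := D.s1
  s3 := D.s3
  q1 := D.q2
  q2 := D.q1
  q3 := by rw [D.q3, mul_comm]
  e12 := by rw [mul_comm, D.e12]
  e13 := D.e23
  e23 := D.e13
  σ1 := D.τ2
  σ2 := D.τ1
  σ3 := D.τ3
  τ1 := D.σ2
  τ2 := D.σ1
  τ3 := D.σ3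
  ρ1 := D.ρ2
  ρ2 := D.ρ1
  ρ3 := D.ρ3
  real := D.real

end Dat

lemma Arith.rot {g12 g13 g23 : ℤ} (h : Arith g12 g13 g23) : Arith g23 g12 g13 where
  pos12 := h.pos23
  pos13 := h.pos12
  pos23 := h.pos13
  sqf := by have := h.sqf; rwa [show g23 * g12 * g13 = g12 * g13 * g23 by ring]
  n1 := by simpa only [mul_comm] using h.n2
  n2 := by simpa only [mul_comm] using h.n3
  n3 := h.n1

lemma Arith.swap {g12 g13 g23 : ℤ} (h : Arith g12 g13 g23) : Arith g12 g23 g13 where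
  pos12 := h.pos12
  pos13 := h.pos23
  pos23 := h.pos13
  sqf := by have := h.sqf; rwa [show g12 * g23 * g13 = g12 * g13 * g23 by ring]
  n1 := h.n2
  n2 := h.n1
  n3 := by simpa only [mul_comm] using h.n3

/-! ### Admissible rational numbers -/

/-- The conditions satisfied by the classes `c1, c2, c3` of the three norms of an element whose
ideal is a square. -/
structure Trip (g12 g13 g23 : ℤ) (c1 c2 c3 : ℚ) : Prop where
  ne1 : c1 ≠ 0
  ne2 : c2 ≠ 0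
  ne3 : c3 ≠ 0
  prod : ∃ e : ℚ, c1 * c2 * c3 = e ^ 2
  s1 : ∀ p : ℕ, p.Prime → p ≠ 2 → ¬ (p : ℤ) ∣ g12 * g13 → vv p c1 = 0
  s2 : ∀ p : ℕ, p.Prime → p ≠ 2 → ¬ (p : ℤ) ∣ g12 * g23 → vv p c2 = 0
  s3 : ∀ p : ℕ, p.Prime → p ≠ 2 → ¬ (p : ℤ) ∣ g13 * g23 → vv p c3 = 0
  l12 : ∀ p : ℕ, p.Prime → p ≠ 2 → (p : ℤ) ∣ g12 →
    xx p c3 = xx p ((g13 * g23 : ℤ) : ℚ) * vv p c1
  l13 : ∀ p : ℕ, p.Prime → p ≠ 2 → (p : ℤ) ∣ g13 →
    xx p c2 = xx p ((g12 * g23 : ℤ) : ℚ) * vv p c1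
  l23 : ∀ p : ℕ, p.Prime → p ≠ 2 → (p : ℤ) ∣ g23 →
    xx p c1 = xx p ((g12 * g13 : ℤ) : ℚ) * vv p c2

/-- The conditions satisfied by a rational number `s` such that `s γ²` is a unit of norm one in
the quadratic field of radicand `d`. -/
structure Adm (d : ℤ) (s : ℚ) : Prop where
  ne : s ≠ 0
  supp : ∀ p : ℕ, p.Prime → p ≠ 2 → ¬ (p : ℤ) ∣ d → vv p s = 0
  nm : ∃ ε : ℚ, (ε = 1 ∨ ε = -1) ∧ ∀ p : ℕ, p.Prime → p ≠ 2 → (p : ℤ) ∣ d →
    xx p (ε * s) = xx p ((-d : ℤ) : ℚ) * vv p s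

/-! ### Integers of the biquadratic field -/

/-- Coordinates in the basis `1, s1, s2, (s2 + s3) / 2`. -/
structure Q4 where
  a : ℤ
  b : ℤ
  c : ℤ
  d : ℤ
  deriving DecidableEq

/-- Multiplication in the basis `1, s1, s2, (s2 + s3) / 2`. -/
def Q4.mul (g12 g13 g23 : ℤ) (x y : Q4) : Q4 :=
  ⟨x.a * y.a + x.b * y.b * (g12 * g13) + x.c * y.c * (g12 * g23) +
      (x.c * y.d + x.d * y.c) * (g12 * (g23 / 2)) + x.d * y.d * ((g23 / 2) * ((g12 + g13) / 2)),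
    x.a * y.b + x.b * y.a + (x.c * y.d + x.d * y.c) * (g23 / 2) + x.d * y.d * (g23 / 2),
    x.a * y.c + x.c * y.a - g12 * (x.b * y.c + x.c * y.b) +
      (g13 - g12) / 2 * (x.b * y.d + x.d * y.b),
    x.a * y.d + x.d * y.a + 2 * g12 * (x.b * y.c + x.c * y.b) + g12 * (x.b * y.d + x.d * y.b)⟩

/-- Addition of coordinates. -/
def Q4.add (x y : Q4) : Q4 := ⟨x.a + y.a, x.b + y.b, x.c + y.c, x.d + y.d⟩

/-- Multiplication of coordinates by an integer. -/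
def Q4.scal (k : ℤ) (x : Q4) : Q4 := ⟨k * x.a, k * x.b, k * x.c, k * x.d⟩

/-- The automorphism `σ` in coordinates. -/
def Q4.sig (x : Q4) : Q4 := ⟨x.a, x.b, -x.c, -x.d⟩

/-- The automorphism `τ` in coordinates. -/
def Q4.tau (x : Q4) : Q4 := ⟨x.a, -x.b, x.c + x.d, -x.d⟩

/-- The element of the field with given coordinates. -/
def Dat.ev {K : Type} [Field K] [NumberField K] {g12 g13 g23 : ℤ} (D : Dat K g12 g13 g23)
    (x : Q4) : K := (x.a : K) + x.b * D.s1 + x.c * D.s2 + x.d * ((D.s2 + D.s3) / 2)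

/-- Certificate for one generator: `al` generates the square of the ideal `(al, m)`, its relative
norms are `c1` and `c2` up to squares. -/
structure GC where
  al : Q4
  al2 : Q4
  m : Q4
  x : Q4
  y : Q4
  w1 : ℤ
  x1 : ℤ
  y1 : ℤ
  w2 : ℤ
  x2 : ℤ
  y2 : ℤ

/-- Check of the certificate of a generator. -/
def GC.ok (g12 g13 g23 c1 c2 : ℤ) (g : GC) : Bool :=
  decide (Q4.mul g12 g13 g23 g.al g.al2 = Q4.mul g12 g13 g23 g.m g.m) &&
  decide (Q4.add (Q4.mul g12 g13 g23 g.x g.al) (Q4.mul g12 g13 g23 g.y g.al2) = ⟨1, 0, 0, 0⟩) &&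
  decide (Q4.scal (g.w1 * g.w1) (Q4.mul g12 g13 g23 g.al g.al.sig) =
    Q4.scal c1 (Q4.mul g12 g13 g23 ⟨g.x1, g.y1, 0, 0⟩ ⟨g.x1, g.y1, 0, 0⟩)) &&
  decide (Q4.scal (g.w2 * g.w2) (Q4.mul g12 g13 g23 g.al g.al.tau) =
    Q4.scal c2 (Q4.mul g12 g13 g23 ⟨g.x2, 0, g.y2, 0⟩ ⟨g.x2, 0, g.y2, 0⟩)) &&
  decide (g.w1 ≠ 0) && decide (g.w2 ≠ 0) && decide (c1 ≠ 0) && decide (c2 ≠ 0) &&
  decide (g.x1 * g.x1 ≠ g12 * g13 * (g.y1 * g.y1)) &&
  decide (g.x2 * g.x2 ≠ g12 * g23 * (g.y2 * g.y2))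

/-! ### Bit masks -/

/-- Bit `i` of `m` as an element of `𝔽₂`. -/
def bitz (m i : ℕ) : ZMod 2 := if m.testBit i then 1 else 0

/-- The pairing of a vector with a bit mask. -/
def dot (N : ℕ) (x : ℕ → ZMod 2) (m : ℕ) : ZMod 2 := ∑ i ∈ Finset.range N, bitz m i * x i

/-- The `xor` of the entries of a list selected by the bits of a mask. -/
def xorSel : List ℕ → ℕ → ℕ
  | [], _ => 0
  | c :: cs, s => (if s % 2 = 1 then c else 0) ^^^ xorSel cs (s / 2)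

/-- The `xor` of the entries of a list of pairs selected by the bits of a mask. -/
def xorSel2 : List (ℕ × ℕ) → ℕ → ℕ × ℕ
  | [], _ => (0, 0)
  | c :: cs, s => ((if s % 2 = 1 then c.1 else 0) ^^^ (xorSel2 cs (s / 2)).1,
      (if s % 2 = 1 then c.2 else 0) ^^^ (xorSel2 cs (s / 2)).2)

/-- The parity of the first `N` bits of `m`. -/
def par : ℕ → ℕ → Bool
  | 0, _ => false
  | N + 1, m => xor (decide (m % 2 = 1)) (par N (m / 2))

/-- The number with given bits. -/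
def ofBits : List Bool → ℕ
  | [] => 0
  | b :: bs => (if b then 1 else 0) + 2 * ofBits bs

/-- Product of the entries of a list selected by the bits of a mask. -/
def prodM : List ℕ → ℕ → ℕ
  | [], _ => 1
  | p :: ps, m => (if m % 2 = 1 then p else 1) * prodM ps (m / 2)

/-- The integer with a given mask: bit 0 is the sign, bit 1 is the prime 2, bit `i + 2` is the
`i`-th prime of the list. -/
def valM (ps : List ℕ) (m : ℕ) : ℤ :=
  (if m % 2 = 1 then -1 else 1) * (if m / 2 % 2 = 1 then 2 else 1) * (prodM ps (m / 4) : ℤ)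

/-- Coordinates of a rational number supported on `2` and the primes of the list. -/
def co (ps : List ℕ) (c : ℚ) : ℕ → ZMod 2
  | 0 => if c < 0 then 1 else 0
  | 1 => vv 2 c
  | i + 2 => vv (ps.getD i 0) c

/-- All primes outside `2` and the list occur with even exponent. -/
def SuppOn (ps : List ℕ) (c : ℚ) : Prop :=
  c ≠ 0 ∧ ∀ p : ℕ, p.Prime → p ≠ 2 → p ∉ ps → vv p c = 0

/-- Modular exponentiation: `powMod p fuel b e acc = acc * b ^ e % p` if `e < 2 ^ fuel`. -/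
def powMod (p : ℕ) : ℕ → ℕ → ℕ → ℕ → ℕ
  | 0, _, _, acc => acc
  | f + 1, b, e, acc => powMod p f (b * b % p) (e / 2) (if e % 2 = 1 then acc * b % p else acc)

/-- Is `q` a nonsquare modulo `p`? (for `p` an odd prime below `2 ^ 40`, not dividing `q`) -/
def legB (q p : ℕ) : Bool := decide (powMod p 40 (q % p) ((p - 1) / 2) 1 ≠ 1)

/-- The mask of the functional `xx p`. -/
def chiM (ps : List ℕ) (p : ℕ) : ℕ :=
  ofBits (legB (p - 1) p :: legB 2 p :: ps.map (fun q => decide (q ≠ p) && legB q p))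

/-- Trial division by odd numbers. -/
def noDiv (p : ℕ) : ℕ → ℕ → Bool
  | 0, _ => false
  | f + 1, k => if p < k * k then true else decide (p % k ≠ 0) && noDiv p f (k + 2)

/-- Primality test for odd numbers below `2 ^ 26`. -/
def primeB (p : ℕ) : Bool := decide (2 < p) && decide (p % 2 = 1) && noDiv p 4096 3

end Pool.Agent.Helper69.BQ
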