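import Mathlib
import Pool.Agent.Helper69.BQ.St.M2
import Pool.Agent.Helper69.BQ.St.M

/-!
# The functional `xx p` in coordinates
-/

namespace Pool.Agent.Helper69.BQ.MTwelve

open Cert

lemma bitz_zero (m : ℕ) : bitz m 0 = if m % 2 = 1 then 1 else 0 := by
  unfold bitz
  rw [Nat.testBit_zero]
  simp

lemma bitz_succ (m i : ℕ) : bitz m (i + 1) = bitz (m / 2) i := by
  unfold bitz
  rw [Nat.testBit_succ]

lemma xx_one {p : ℕ} (hp : p.Prime) (hp2 : p ≠ 2) : xx p 1 = 0 := by
  have := xx_sq hp hp2 (a := 1) one_ne_zero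
  rwa [one_pow] at this

lemma prodM_ne {qs : List ℕ} (hq : ∀ q ∈ qs, q ≠ 0) (m : ℕ) : prodM qs m ≠ 0 := by
  induction qs generalizing m with
  | nil => exact one_ne_zero
  | cons q qs ih =>
    show (if m % 2 = 1 then q else 1) * prodM qs (m / 2) ≠ 0
    refine mul_ne_zero ?_ (ih (fun q hq' => hq q (List.mem_cons_of_mem _ hq')) _)
    split_ifs
    · exact hq q List.mem_cons_self
    · exact one_ne_zero

lemma xx_prodM {p : ℕ} (hp : p.Prime) (hp2 : p ≠ 2) {qs : List ℕ} (hq : ∀ q ∈ qs, q ≠ 0) (m : ℕ) :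
    xx p ((prodM qs m : ℕ) : ℚ) =
      ∑ i ∈ Finset.range qs.length, bitz m i * xx p ((gt qs i : ℕ) : ℚ) := by
  induction qs generalizing m with
  | nil => simpa [prodM] using xx_one hp hp2
  | cons q qs ih =>
    have hq' : ∀ q ∈ qs, q ≠ 0 := fun q hq' => hq q (List.mem_cons_of_mem _ hq')
    have h1 : (((if m % 2 = 1 then q else 1 : ℕ) : ℕ) : ℚ) ≠ 0 := by
      have : (if m % 2 = 1 then q else 1 : ℕ) ≠ 0 := by
        split_ifs
        · exact hq q List.mem_cons_self
        · exact one_ne_zero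
      exact_mod_cast this
    have h2 : ((prodM qs (m / 2) : ℕ) : ℚ) ≠ 0 := by exact_mod_cast prodM_ne hq' _
    show xx p (((if m % 2 = 1 then q else 1) * prodM qs (m / 2) : ℕ) : ℚ) = _
    rw [Nat.cast_mul, xx_mul hp hp2 h1 h2, ih hq', List.length_cons, Finset.sum_range_succ', add_comm]
    congr 1
    · refine Finset.sum_congr rfl fun i _ => ?_
      rw [bitz_succ]
      rfl
    rw [bitz_zero]
    split_ifs
    · rw [one_mul]; rfl
    · rw [zero_mul, Nat.cast_one]; exact xx_one hp hp2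

/-- Bits of the functional. -/
lemma xx_eq_bitz {p : ℕ} (hp : p.Prime) (hp2 : p ≠ 2) (hlt : p < 2 ^ 30) {n : ℤ} {q : ℕ}
    (hnq : ((n : ℤ) : ZMod p) = ((q : ℕ) : ZMod p)) (hq : ¬ p ∣ q) :
    xx p (n : ℚ) = if legB q p then 1 else 0 := by
  have hn : ¬ (p : ℤ) ∣ n := by
    intro h
    apply hq
    rw [← ZMod.natCast_eq_zero_iff, ← hnq]
    exact (ZMod.intCast_zmod_eq_zero_iff_dvd n p).2 h
  have h1 := legB_iff (q := q) hp hp2 hlt hq
  have h2 := xx_int hp hp2 hn
  rw [hnq] at h2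
  have h01 : ∀ x : ZMod 2, x = 0 ∨ x = 1 := by decide
  by_cases hs : IsSquare ((q : ℕ) : ZMod p)
  · rw [if_neg (fun h => (h1.1 h) hs)]
    exact h2.2 hs
  · rw [if_pos (h1.2 hs)]
    rcases h01 (xx p (n : ℚ)) with h | h
    · exact absurd (h2.1 h) hs
    · exact h

/-- M12. -/
lemma xx_eq_dot {ps : List ℕ} (hps : ∀ p ∈ ps, p.Prime ∧ p ≠ 2 ∧ p < 2 ^ 30) (hnd : ps.Nodup)
    {p : ℕ} (hp : p ∈ ps) {c : ℚ} (hc : SuppOn ps c) :
    xx p c = dot (ps.length + 2) (co ps c) (chiM ps p) := by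
  obtain ⟨hpp, hp2, hlt⟩ := hps p hp
  have hps' : ∀ p ∈ ps, p.Prime ∧ p ≠ 2 := fun p hp => ⟨(hps p hp).1, (hps p hp).2.1⟩
  have hps'' : ∀ p ∈ ps, p.Prime := fun p hp => (hps p hp).1
  have hne : ∀ q ∈ ps, q ≠ 0 := fun q hq => (hps q hq).1.ne_zero
  have h01 : ∀ x : ZMod 2, x = 0 ∨ x = 1 := by decide
  -- the mask of `c`
  set m : ℕ := ofBits ((List.range (ps.length + 2)).map fun i => decide (co ps c i = 1)) with hm
  have hbit : ∀ i < ps.length + 2, bitz m i = co ps c i := by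
    intro i hi
    rw [hm, bitz_ofBits, List.getD_eq_getElem?_getD, List.getElem?_map,
      List.getElem?_range hi]
    simp only [Option.map_some, Option.getD_some, decide_eq_true_eq]
    rcases h01 (co ps c i) with h | h <;> rw [h] <;> simp
  obtain ⟨q, hq, hcq⟩ := eq_of_co hps'' hc (supp_valM hps' m) (fun i hi => by
    rw [co_valM hps' hnd m i hi, hbit i hi])
  have hv : ((valM ps m : ℤ) : ℚ) ≠ 0 := (supp_valM hps' m).1
  have e1 : xx p c = xx p ((valM ps m : ℤ) : ℚ) := by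
    rw [hcq, xx_mul hpp hp2 hv (pow_ne_zero _ hq), xx_sq hpp hp2 hq, add_zero]
  have hchi : ∀ i, bitz (chiM ps p) i = if (legB (p - 1) p :: legB 2 p ::
      ps.map (fun q => decide (q ≠ p) && legB q p)).getD i false then 1 else 0 := by
    intro i
    exact bitz_ofBits _ _
  -- the three kinds of generators
  have g0 : xx p ((-1 : ℤ) : ℚ) = bitz (chiM ps p) 0 := by
    rw [hchi]
    apply xx_eq_bitz hpp hp2 hlt
    · rw [Nat.cast_sub hpp.one_le]
      simp
    · intro h
      have := Nat.le_of_dvd (by have := hpp.two_le; omega) h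
      have := hpp.two_le
      omega
  have g1 : xx p ((2 : ℤ) : ℚ) = bitz (chiM ps p) 1 := by
    rw [hchi]
    apply xx_eq_bitz hpp hp2 hlt
    · simp
    · intro h
      have := (Nat.prime_dvd_prime_iff_eq hpp Nat.prime_two).1 h
      exact hp2 this
  have g2 : ∀ i < ps.length, xx p ((gt ps i : ℕ) : ℚ) = bitz (chiM ps p) (i + 2) := by
    intro i hi
    have hmem : gt ps i ∈ ps := by
      unfold gt
      rw [List.getD_eq_getElem _ _ hi]
      exact List.getElem_mem hi
    have hgd : (legB (p - 1) p :: legB 2 p ::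
      ps.map (fun q => decide (q ≠ p) && legB q p)).getD (i + 2) false =
        (decide (gt ps i ≠ p) && legB (gt ps i) p) := by
      show (ps.map (fun q => decide (q ≠ p) && legB q p)).getD i false = _
      unfold gt
      rw [List.getD_eq_getElem _ _ (by simpa using hi), List.getElem_map,
        List.getD_eq_getElem _ _ hi]
    rw [hchi, hgd]
    by_cases hip : gt ps i = p
    · rw [hip]
      simpa using xx_self hpp hp2
    · have := xx_eq_bitz hpp hp2 hlt (n := ((gt ps i : ℕ) : ℤ)) (q := gt ps i) (by simp) (by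
        intro h
        exact hip ((Nat.prime_dvd_prime_iff_eq hpp (hps'' _ hmem)).1 h).symm)
      rw [Int.cast_natCast] at this
      rw [this]
      simp [hip]
  rw [e1]
  unfold valM dot
  rw [Finset.sum_range_succ', Finset.sum_range_succ']
  have hA : (((if m % 2 = 1 then (-1 : ℤ) else 1) : ℤ) : ℚ) ≠ 0 := by
    split_ifs <;> simp
  have hB : (((if m / 2 % 2 = 1 then (2 : ℤ) else 1) : ℤ) : ℚ) ≠ 0 := by
    split_ifs <;> simp
  have hC : (((prodM ps (m / 4) : ℕ) : ℤ) : ℚ) ≠ 0 := by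
    have := prodM_ne hne (m / 4)
    exact_mod_cast this
  rw [Int.cast_mul, Int.cast_mul, xx_mul hpp hp2 (mul_ne_zero hA hB) hC, xx_mul hpp hp2 hA hB,
    Int.cast_natCast, xx_prodM hpp hp2 hne]
  have t0 : xx p (((if m % 2 = 1 then (-1 : ℤ) else 1) : ℤ) : ℚ) =
      bitz (chiM ps p) 0 * co ps c 0 := by
    rw [← hbit 0 (by omega), bitz_zero m, ← g0]
    split_ifs
    · rw [mul_one]
    · rw [mul_zero, Int.cast_one]; exact xx_one hpp hp2
  have t1 : xx p (((if m / 2 % 2 = 1 then (2 : ℤ) else 1) : ℤ) : ℚ) =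
      bitz (chiM ps p) (0 + 1) * co ps c (0 + 1) := by
    rw [← hbit (0 + 1) (by omega), bitz_succ m, bitz_zero (m / 2), zero_add, ← g1]
    split_ifs
    · rw [mul_one]
    · rw [mul_zero, Int.cast_one]; exact xx_one hpp hp2
  rw [t0, t1]
  have t2 : ∑ i ∈ Finset.range ps.length, bitz (m / 4) i * xx p ((gt ps i : ℕ) : ℚ) =
      ∑ i ∈ Finset.range ps.length, bitz (chiM ps p) (i + 1 + 1) * co ps c (i + 1 + 1) := by
    refine Finset.sum_congr rfl fun i hi => ?_
    rw [Finset.mem_range] at hi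
    rw [g2 i hi, mul_comm]
    congr 1
    rw [← hbit (i + 1 + 1) (by omega), bitz_succ m, bitz_succ (m / 2), Nat.div_div_eq_div_mul]
  rw [t2]
  ring

end Pool.Agent.Helper69.BQ.MTwelve
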