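import Mathlib
import Pool.Agent.Helper69.BQ.St.M

/-!
# What the first checks give
-/

namespace Pool.Agent.Helper69.BQ.SOne

open Cert

/-- S1a. -/
lemma ok1_primes {c : Cert} (h : c.ok1 = true) :
    (∀ p ∈ c.ps, p.Prime ∧ p ≠ 2 ∧ p < 2 ^ 30) ∧ c.ps.Nodup := by
  unfold Cert.ok1 at h
  simp only [Bool.and_eq_true, List.all_eq_true, decide_eq_true_eq] at h
  exact ⟨fun p hp => prime_of_primeB (h.1.1.1.1.1 p hp), h.1.1.1.1.2⟩

lemma sqf_prod {l : List ℕ} (hp : ∀ p ∈ l, p.Prime) (hn : l.Nodup) : Squarefree l.prod := by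
  induction l with
  | nil => exact squarefree_one
  | cons q l ih =>
    rw [List.nodup_cons] at hn
    rw [List.prod_cons, Nat.squarefree_mul_iff]
    have hq := hp q List.mem_cons_self
    have hl : ∀ p ∈ l, p.Prime := fun p h => hp p (List.mem_cons_of_mem _ h)
    refine ⟨?_, hq.squarefree, ih hl hn.2⟩
    rw [hq.coprime_iff_not_dvd]
    intro hd
    rw [hq.prime.dvd_prod_iff] at hd
    obtain ⟨a, ha, had⟩ := hd
    rw [Nat.prime_dvd_prime_iff_eq hq (hl a ha)] at had
    subst had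
    exact hn.1 ha

lemma dvd_prod_iff_mem {l : List ℕ} (hp : ∀ p ∈ l, p.Prime) {q : ℕ} (hq : q.Prime) :
    q ∣ l.prod ↔ q ∈ l := by
  rw [hq.prime.dvd_prod_iff]
  constructor
  · rintro ⟨a, ha, had⟩
    rw [Nat.prime_dvd_prime_iff_eq hq (hp a ha)] at had
    subst had
    exact ha
  · intro h
    exact ⟨q, h, dvd_rfl⟩

lemma pos_prod {l : List ℕ} (hp : ∀ p ∈ l, p.Prime) : 0 < l.prod :=
  List.prod_pos fun p h => (hp p h).pos

/-- S1b. -/
lemma ok1_arith {c : Cert} (h : c.ok1 = true) : Arith c.g12 c.g13 c.g23 ∧ 4 ∣ c.g12 + c.g13 ∧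
    2 ∣ c.g23 := by
  obtain ⟨hps, hnd⟩ := ok1_primes h
  unfold Cert.ok1 at h
  simp only [Bool.and_eq_true, List.any_eq_true, decide_eq_true_eq] at h
  obtain ⟨⟨⟨⟨-, hmod⟩, h12⟩, h13⟩, h23⟩ := h
  have m12 : ∀ p ∈ c.P12, p ∈ c.ps := fun p hp => List.mem_append_left _ hp
  have m13 : ∀ p ∈ c.P13, p ∈ c.ps := fun p hp =>
    List.mem_append_right _ (List.mem_append_left _ hp)
  have m23 : ∀ p ∈ c.P23, p ∈ c.ps := fun p hp =>
    List.mem_append_right _ (List.mem_append_right _ hp)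
  have p12 : ∀ p ∈ c.P12, p.Prime := fun p hp => (hps p (m12 p hp)).1
  have p13 : ∀ p ∈ c.P13, p.Prime := fun p hp => (hps p (m13 p hp)).1
  have p23 : ∀ p ∈ c.P23, p.Prime := fun p hp => (hps p (m23 p hp)).1
  have d12 : ∀ p ∈ c.P12, (p : ℤ) ∣ c.g12 := fun p hp =>
    Int.natCast_dvd_natCast.2 (List.dvd_prod hp)
  have d13 : ∀ p ∈ c.P13, (p : ℤ) ∣ c.g13 := fun p hp =>
    Int.natCast_dvd_natCast.2 (List.dvd_prod hp)
  have d23 : ∀ p ∈ c.P23, (p : ℤ) ∣ c.g23 := fun p hp =>
    Int.natCast_dvd_natCast.2 (Dvd.dvd.mul_left (List.dvd_prod hp) 2)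
  refine ⟨⟨?_, ?_, ?_, ?_, ?_, ?_, ?_⟩, ?_, ?_⟩
  · exact Int.natCast_pos.2 (pos_prod p12)
  · exact Int.natCast_pos.2 (pos_prod p13)
  · exact Int.natCast_pos.2 (Nat.mul_pos two_pos (pos_prod p23))
  · have e : c.g12 * c.g13 * c.g23 = (((2 :: c.ps).prod : ℕ) : ℤ) := by
      unfold Cert.g12 Cert.g13 Cert.g23 Cert.ps
      rw [List.prod_cons, List.prod_append, List.prod_append]
      push_cast
      ring
    rw [e, Int.squarefree_natCast]
    apply sqf_prod
    · intro p hp
      rcases List.mem_cons.1 hp with h | h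
      · rw [h]; exact Nat.prime_two
      · exact (hps p h).1
    · rw [List.nodup_cons]
      exact ⟨fun h2 => (hps 2 h2).2.1 rfl, hnd⟩
  · obtain ⟨q, hq, hq3⟩ := h12
    rcases List.mem_append.1 hq with hq | hq
    · exact ⟨q, p12 q hq, hq3, (d12 q hq).mul_right _⟩
    · exact ⟨q, p13 q hq, hq3, (d13 q hq).mul_left _⟩
  · obtain ⟨q, hq, hq3⟩ := h13
    rcases List.mem_append.1 hq with hq | hq
    · exact ⟨q, p12 q hq, hq3, (d12 q hq).mul_right _⟩
    · exact ⟨q, p23 q hq, hq3, (d23 q hq).mul_left _⟩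
  · obtain ⟨q, hq, hq3⟩ := h23
    rcases List.mem_append.1 hq with hq | hq
    · exact ⟨q, p13 q hq, hq3, (d13 q hq).mul_right _⟩
    · exact ⟨q, p23 q hq, hq3, (d23 q hq).mul_left _⟩
  · have h4 : 4 ∣ c.P12.prod + c.P13.prod := by
      have h1 := Nat.mul_mod c.P12.prod c.P13.prod 4
      rw [hmod] at h1
      have h2 : c.P12.prod % 4 < 4 := Nat.mod_lt _ (by norm_num)
      have h3 : c.P13.prod % 4 < 4 := Nat.mod_lt _ (by norm_num)
      rw [Nat.dvd_iff_mod_eq_zero, Nat.add_mod]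
      generalize c.P12.prod % 4 = x at h1 h2
      generalize c.P13.prod % 4 = y at h1 h3
      interval_cases x <;> interval_cases y <;> omega
    show (4 : ℤ) ∣ ((c.P12.prod : ℕ) : ℤ) + ((c.P13.prod : ℕ) : ℤ)
    exact_mod_cast h4
  · exact ⟨((c.P23.prod : ℕ) : ℤ), by unfold Cert.g23; push_cast; ring⟩

lemma prodM_full (l : List ℕ) (k : ℕ) : prodM l (2 ^ l.length * k + (2 ^ l.length - 1)) = l.prod := by
  induction l generalizing k with
  | nil => rfl
  | cons p l ih =>
    have h1 : 1 ≤ 2 ^ l.length := Nat.one_le_two_pow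
    have e : 2 ^ (p :: l).length * k + (2 ^ (p :: l).length - 1) =
        2 * (2 ^ l.length * k + (2 ^ l.length - 1)) + 1 := by
      rw [List.length_cons, pow_succ]
      generalize 2 ^ l.length = z at h1
      have : z * 2 * k = 2 * (z * k) := by ring
      rw [this]
      omega
    rw [e]
    show (if (2 * (2 ^ l.length * k + (2 ^ l.length - 1)) + 1) % 2 = 1 then p else 1) *
      prodM l ((2 * (2 ^ l.length * k + (2 ^ l.length - 1)) + 1) / 2) = _
    rw [if_pos (by omega), show (2 * (2 ^ l.length * k + (2 ^ l.length - 1)) + 1) / 2 =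
      2 ^ l.length * k + (2 ^ l.length - 1) by omega, ih, List.prod_cons]

lemma prodM_empty (l : List ℕ) (k : ℕ) : prodM l (2 ^ l.length * k) = 1 := by
  induction l generalizing k with
  | nil => rfl
  | cons p l ih =>
    have e : 2 ^ (p :: l).length * k = 2 * (2 ^ l.length * k) := by
      rw [List.length_cons, pow_succ]
      ring
    rw [e]
    show (if (2 * (2 ^ l.length * k)) % 2 = 1 then p else 1) *
      prodM l ((2 * (2 ^ l.length * k)) / 2) = _
    rw [if_neg (by omega), show (2 * (2 ^ l.length * k)) / 2 = 2 ^ l.length * k by omega, ih]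

lemma prodM_append (l l' : List ℕ) (m : ℕ) :
    prodM (l ++ l') m = prodM l m * prodM l' (m / 2 ^ l.length) := by
  induction l generalizing m with
  | nil => simp [prodM]
  | cons p l ih =>
    show (if m % 2 = 1 then p else 1) * prodM (l ++ l') (m / 2) =
      (if m % 2 = 1 then p else 1) * prodM l (m / 2) * prodM l' (m / 2 ^ (p :: l).length)
    rw [ih, List.length_cons, pow_succ', ← Nat.div_div_eq_div_mul, mul_assoc]

/-- S1c. The masks of the radicands. -/
lemma valM_d {c : Cert} : valM c.ps c.d1m = c.g12 * c.g13 ∧ valM c.ps c.d2m = c.g12 * c.g23 ∧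
    valM c.ps c.d3m = c.g13 * c.g23 := by
  have hx : 1 ≤ 2 ^ c.P12.length := Nat.one_le_two_pow
  have hy : 1 ≤ 2 ^ c.P13.length := Nat.one_le_two_pow
  have hz : 1 ≤ 2 ^ c.P23.length := Nat.one_le_two_pow
  have a12 : c.m12 = 4 * (2 ^ c.P12.length - 1) := by
    unfold Cert.m12
    rw [pow_add]
    omega
  have a13 : c.m13 = 4 * (2 ^ c.P12.length * (2 ^ c.P13.length - 1)) := by
    unfold Cert.m13
    rw [pow_add, pow_add, Nat.mul_sub, mul_one]
    generalize 2 ^ c.P12.length = x at *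
    generalize 2 ^ c.P13.length = y at *
    have : 2 ^ 2 * x * y = 4 * (x * y) := by ring
    rw [this]
    omega
  have a23 : c.m23 = 4 * (2 ^ c.P12.length * (2 ^ c.P13.length * (2 ^ c.P23.length - 1))) := by
    unfold Cert.m23
    rw [pow_add, pow_add, pow_add, Nat.mul_sub, Nat.mul_sub, mul_one]
    generalize 2 ^ c.P12.length = x at *
    generalize 2 ^ c.P13.length = y at *
    generalize 2 ^ c.P23.length = z at *
    have e1 : 2 ^ 2 * x * y * z = 4 * (x * (y * z)) := by ring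
    have e2 : 2 ^ 2 * x * y = 4 * (x * y) := by ring
    rw [e1, e2]
    omega
  have sp : ∀ u v w : ℕ, prodM c.ps
      (u + 2 ^ c.P12.length * (v + 2 ^ c.P13.length * w)) =
      prodM c.P12 (u + 2 ^ c.P12.length * (v + 2 ^ c.P13.length * w)) *
      (prodM c.P13 ((u + 2 ^ c.P12.length * (v + 2 ^ c.P13.length * w)) / 2 ^ c.P12.length) *
      prodM c.P23 ((u + 2 ^ c.P12.length * (v + 2 ^ c.P13.length * w)) / 2 ^ c.P12.length /
        2 ^ c.P13.length)) := by
    intro u v w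
    unfold Cert.ps
    rw [prodM_append, prodM_append]
  have ev : ∀ {s u v w : ℕ}, u < 2 ^ c.P12.length → v < 2 ^ c.P13.length → s < 2 →
      valM c.ps (4 * (u + 2 ^ c.P12.length * (v + 2 ^ c.P13.length * w)) + 2 * s) =
        (if s = 1 then 2 else 1) * ((prodM c.P12 (u + 2 ^ c.P12.length * (v + 2 ^ c.P13.length * w)) *
          (prodM c.P13 (v + 2 ^ c.P13.length * w) * prodM c.P23 w) : ℕ) : ℤ) := by
    intro s u v w hu hv hs
    set t := u + 2 ^ c.P12.length * (v + 2 ^ c.P13.length * w) with ht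
    unfold valM
    rw [if_neg (by omega), show (4 * t + 2 * s) / 4 = t by omega,
      show (4 * t + 2 * s) / 2 % 2 = s by omega, one_mul, ht, sp]
    have e1 : (u + 2 ^ c.P12.length * (v + 2 ^ c.P13.length * w)) / 2 ^ c.P12.length =
        v + 2 ^ c.P13.length * w := by
      rw [Nat.add_mul_div_left _ _ (by positivity), Nat.div_eq_of_lt hu, zero_add]
    have e2 : (v + 2 ^ c.P13.length * w) / 2 ^ c.P13.length = w := by
      rw [Nat.add_mul_div_left _ _ (by positivity), Nat.div_eq_of_lt hv, zero_add]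
    rw [e1, e2]
  have full : ∀ (l : List ℕ) (k : ℕ), prodM l ((2 ^ l.length - 1) + 2 ^ l.length * k) = l.prod :=
    fun l k => by rw [add_comm]; exact prodM_full l k
  have emp : ∀ (l : List ℕ) (k : ℕ), prodM l (0 + 2 ^ l.length * k) = 1 :=
    fun l k => by rw [zero_add]; exact prodM_empty l k
  have full0 : ∀ (l : List ℕ), prodM l (2 ^ l.length - 1) = l.prod :=
    fun l => by have := full l 0; simpa using this
  have emp0 : ∀ (l : List ℕ), prodM l 0 = 1 := fun l => by have := emp l 0; simpa using this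
  refine ⟨?_, ?_, ?_⟩
  · have e : c.d1m = 4 * ((2 ^ c.P12.length - 1) + 2 ^ c.P12.length *
        ((2 ^ c.P13.length - 1) + 2 ^ c.P13.length * 0)) + 2 * 0 := by
      unfold Cert.d1m
      rw [a12, a13]
      ring
    rw [e, ev (by omega) (by omega) (by omega), full, full, emp0]
    unfold Cert.g12 Cert.g13
    simp
  · have e : c.d2m = 4 * ((2 ^ c.P12.length - 1) + 2 ^ c.P12.length *
        (0 + 2 ^ c.P13.length * (2 ^ c.P23.length - 1))) + 2 * 1 := by
      unfold Cert.d2m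
      rw [a12, a23]
      ring
    rw [e, ev (by omega) (by omega) (by omega), full, emp, full0]
    unfold Cert.g12 Cert.g23
    push_cast
    ring
  · have e : c.d3m = 4 * (0 + 2 ^ c.P12.length *
        ((2 ^ c.P13.length - 1) + 2 ^ c.P13.length * (2 ^ c.P23.length - 1))) + 2 * 1 := by
      unfold Cert.d3m
      rw [a13, a23]
      ring
    rw [e, ev (by omega) (by omega) (by omega), full, emp, full0]
    unfold Cert.g13 Cert.g23
    push_cast
    ring

lemma testBit_sub {a b j : ℕ} (hab : a ≤ b) :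
    (2 ^ b - 2 ^ a).testBit j = (decide (a ≤ j) && decide (j < b)) := by
  have e : 2 ^ b - 2 ^ a = (2 ^ (b - a) - 1) <<< a := by
    rw [Nat.shiftLeft_eq, Nat.sub_mul, one_mul, ← pow_add, Nat.sub_add_cancel hab]
  rw [e, Nat.testBit_shiftLeft, Nat.testBit_two_pow_sub_one]
  by_cases h : a ≤ j
  · simp only [ge_iff_le, h, decide_true, Bool.true_and]
    congr 1
    exact propext ⟨fun h => by omega, fun h => by omega⟩
  · simp [h]

/-- S1d. Divisibility of the radicands by the `i`-th prime, in terms of masks. -/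
lemma dvd_iff {c : Cert} (h : c.ok1 = true) {i : ℕ} (hi : i < c.ps.length) :
    (((gt c.ps i : ℕ) : ℤ) ∣ c.g12 ↔ c.m12.testBit (i + 2) = true) ∧
    (((gt c.ps i : ℕ) : ℤ) ∣ c.g13 ↔ c.m13.testBit (i + 2) = true) ∧
    (((gt c.ps i : ℕ) : ℤ) ∣ c.g23 ↔ c.m23.testBit (i + 2) = true) := by
  obtain ⟨hps, hnd⟩ := ok1_primes h
  have m12 : ∀ p ∈ c.P12, p ∈ c.ps := fun p hp => List.mem_append_left _ hp
  have m13 : ∀ p ∈ c.P13, p ∈ c.ps := fun p hp =>
    List.mem_append_right _ (List.mem_append_left _ hp)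
  have m23 : ∀ p ∈ c.P23, p ∈ c.ps := fun p hp =>
    List.mem_append_right _ (List.mem_append_right _ hp)
  have p12 : ∀ p ∈ c.P12, p.Prime := fun p hp => (hps p (m12 p hp)).1
  have p13 : ∀ p ∈ c.P13, p.Prime := fun p hp => (hps p (m13 p hp)).1
  have p23 : ∀ p ∈ c.P23, p.Prime := fun p hp => (hps p (m23 p hp)).1
  have hg : gt c.ps i = c.ps[i] := List.getD_eq_getElem _ _ hi
  have hmem : gt c.ps i ∈ c.ps := by rw [hg]; exact List.getElem_mem hi
  obtain ⟨hq, hq2, -⟩ := hps _ hmem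
  have e12 : ((gt c.ps i : ℕ) : ℤ) ∣ c.g12 ↔ gt c.ps i ∈ c.P12 := by
    unfold Cert.g12
    rw [Int.natCast_dvd_natCast, dvd_prod_iff_mem p12 hq]
  have e13 : ((gt c.ps i : ℕ) : ℤ) ∣ c.g13 ↔ gt c.ps i ∈ c.P13 := by
    unfold Cert.g13
    rw [Int.natCast_dvd_natCast, dvd_prod_iff_mem p13 hq]
  have e23 : ((gt c.ps i : ℕ) : ℤ) ∣ c.g23 ↔ gt c.ps i ∈ c.P23 := by
    unfold Cert.g23
    rw [Int.natCast_dvd_natCast, hq.dvd_mul, dvd_prod_iff_mem p23 hq,
      Nat.prime_dvd_prime_iff_eq hq Nat.prime_two]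
    exact ⟨fun h => h.resolve_left hq2, Or.inr⟩
  rw [e12, e13, e23]
  have hlen : c.ps.length = c.P12.length + (c.P13.length + c.P23.length) := by
    unfold Cert.ps
    rw [List.length_append, List.length_append]
  rw [hlen] at hi
  have hnd' := hnd
  unfold Cert.ps at hnd'
  rw [List.nodup_append, List.nodup_append] at hnd'
  obtain ⟨-, ⟨-, -, hd2⟩, hd1⟩ := hnd'
  have t12 : c.m12.testBit (i + 2) = true ↔ i < c.P12.length := by
    unfold Cert.m12
    rw [testBit_sub (by omega), Bool.and_eq_true, decide_eq_true_eq, decide_eq_true_eq]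
    omega
  have t13 : c.m13.testBit (i + 2) = true ↔ c.P12.length ≤ i ∧ i < c.P12.length + c.P13.length := by
    unfold Cert.m13
    rw [testBit_sub (by omega), Bool.and_eq_true, decide_eq_true_eq, decide_eq_true_eq]
    omega
  have t23 : c.m23.testBit (i + 2) = true ↔ c.P12.length + c.P13.length ≤ i := by
    unfold Cert.m23
    rw [testBit_sub (by omega), Bool.and_eq_true, decide_eq_true_eq, decide_eq_true_eq]
    omega
  rw [t12, t13, t23]
  have n12 : ∀ q, q ∈ c.P12 → q ∉ c.P13 ∧ q ∉ c.P23 := fun q hq =>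
    ⟨fun h => hd1 q hq q (List.mem_append_left _ h) rfl,
      fun h => hd1 q hq q (List.mem_append_right _ h) rfl⟩
  have n13 : ∀ q, q ∈ c.P13 → q ∉ c.P23 := fun q hq h => hd2 q hq q h rfl
  rcases lt_or_ge i c.P12.length with h1 | h1
  · have hm : gt c.ps i ∈ c.P12 := by
      show (c.P12 ++ (c.P13 ++ c.P23)).getD i 0 ∈ c.P12
      rw [List.getD_append _ _ _ _ h1, List.getD_eq_getElem _ _ h1]
      exact List.getElem_mem h1
    refine ⟨⟨fun _ => h1, fun _ => hm⟩, ⟨fun h => absurd h (n12 _ hm).1, fun h => by omega⟩,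
      ⟨fun h => absurd h (n12 _ hm).2, fun h => by omega⟩⟩
  rcases lt_or_ge i (c.P12.length + c.P13.length) with h2 | h2
  · have hm : gt c.ps i ∈ c.P13 := by
      show (c.P12 ++ (c.P13 ++ c.P23)).getD i 0 ∈ c.P13
      rw [List.getD_append_right _ _ _ _ h1, List.getD_append _ _ _ _ (by omega),
        List.getD_eq_getElem _ _ (by omega)]
      exact List.getElem_mem _
    refine ⟨⟨fun h => absurd hm (n12 _ h).1, fun h => by omega⟩,
      ⟨fun _ => ⟨h1, h2⟩, fun _ => hm⟩, ⟨fun h => absurd h (n13 _ hm), fun h => by omega⟩⟩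
  · have hm : gt c.ps i ∈ c.P23 := by
      show (c.P12 ++ (c.P13 ++ c.P23)).getD i 0 ∈ c.P23
      rw [List.getD_append_right _ _ _ _ h1, List.getD_append_right _ _ _ _ (by omega),
        List.getD_eq_getElem _ _ (by omega)]
      exact List.getElem_mem _
    refine ⟨⟨fun h => absurd hm (n12 _ h).2, fun h => by omega⟩,
      ⟨fun h => absurd hm (n13 _ h), fun h => by omega⟩, ⟨fun _ => h2, fun _ => hm⟩⟩

end Pool.Agent.Helper69.BQ.SOne
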