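import Pool.Agent.Helper69.BQ.Basic

/-!
# The modules attached to pairs of matrices
-/

namespace Pool.Agent.Helper69.BQ

open Module NumberField

/-- The representation of `C₂ × C₂` on `𝔽₂ᵐ × 𝔽₂ⁿ` attached to two `n × m` matrices `A`, `B` over
`𝔽₂`: the element `(a, b)` acts by `(u, w) ↦ (u, w + a A u + b B u)`. -/
def kroRep {m n : ℕ} (A B : Matrix (Fin n) (Fin m) (ZMod 2)) :
    Representation (ZMod 2) C22 ((Fin m → ZMod 2) × (Fin n → ZMod 2)) where
  toFun g :=
    { toFun := fun x => (x.1, x.2 + (Multiplicative.toAdd g).1 • A.mulVec x.1 +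
        (Multiplicative.toAdd g).2 • B.mulVec x.1)
      map_add' := fun x y => by
        ext j
        · rfl
        · simp only [Prod.fst_add, Prod.snd_add, Matrix.mulVec_add, smul_add, Pi.add_apply,
            Pi.smul_apply]
          ring
      map_smul' := fun c x => by
        ext j
        · rfl
        · simp only [Prod.smul_fst, Prod.smul_snd, Matrix.mulVec_smul, Pi.add_apply,
            Pi.smul_apply, smul_eq_mul, RingHom.id_apply]
          ring }
  map_one' := by
    apply LinearMap.ext
    intro x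
    show (x.1, x.2 + (0 : ZMod 2) • A.mulVec x.1 + (0 : ZMod 2) • B.mulVec x.1) = x
    rw [zero_smul, zero_smul, add_zero, add_zero]
  map_mul' := fun g h => by
    apply LinearMap.ext
    intro x
    show (x.1, x.2 + ((Multiplicative.toAdd g).1 + (Multiplicative.toAdd h).1) • A.mulVec x.1 +
      ((Multiplicative.toAdd g).2 + (Multiplicative.toAdd h).2) • B.mulVec x.1) =
      (x.1, (x.2 + (Multiplicative.toAdd h).1 • A.mulVec x.1 +
        (Multiplicative.toAdd h).2 • B.mulVec x.1) + (Multiplicative.toAdd g).1 • A.mulVec x.1 +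
        (Multiplicative.toAdd g).2 • B.mulVec x.1)
    rw [add_smul, add_smul]
    congr 1
    abel

/-- Two representations are isomorphic. -/
def Iso {V W : Type} [AddCommGroup V] [Module (ZMod 2) V] [AddCommGroup W] [Module (ZMod 2) W]
    (ρ : Representation (ZMod 2) C22 V) (ρ' : Representation (ZMod 2) C22 W) : Prop :=
  ∃ e : V ≃ₗ[ZMod 2] W, ∀ g v, e (ρ g v) = ρ' g (e v)

/-- `ρ` is, up to a twist by an automorphism of `C₂ × C₂`, isomorphic to the representation of a
pair of matrices in the list. -/
def InList {V : Type} [AddCommGroup V] [Module (ZMod 2) V]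
    (ρ : Representation (ZMod 2) C22 V) : Prop :=
  ∃ (m n : ℕ) (A B : Matrix (Fin n) (Fin m) (ZMod 2)) (θ : C22 ≃* C22),
    Listed m n A B ∧ Iso (MonoidHom.comp ρ θ.toMonoidHom) (kroRep A B)

end Pool.Agent.Helper69.BQ
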