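import Pool.Agent.Helper69.BQ.Defs

/-!
# The certificate for one module, and its check (project BQ)
-/

namespace Pool.Agent.Helper69.BQ

/-- All data for one field and one module. The primes of the field are `P12 ++ P13 ++ P23` and `2`;
masks have bit 0 for the sign, bit 1 for the prime 2 and bit `i + 2` for the `i`-th prime. -/
structure Cert where
  /-- odd primes dividing `g12` -/
  P12 : List ℕ
  /-- odd primes dividing `g13` -/
  P13 : List ℕ
  /-- odd primes dividing `g23` -/
  P23 : List ℕ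
  /-- masks of the functionals `xx p` -/
  chi : List ℕ
  /-- conditions `Adm` for the three radicands -/
  k1 : List ℕ
  k2 : List ℕ
  k3 : List ℕ
  /-- conditions `Trip` -/
  kp : List (ℕ × ℕ)
  /-- masks of the relations given by the fundamental units -/
  r1 : ℕ
  r2 : ℕ
  r3 : ℕ
  /-- certificate that the conditions `k1, k2, k3` have only the expected solutions -/
  F1 : ℕ × ℕ
  F2 : ℕ × ℕ
  F3 : ℕ × ℕ
  K1 : List ℕ
  K2 : List ℕ
  K3 : List ℕ
  /-- the module: `m` columns of `n` bits -/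
  m : ℕ
  n : ℕ
  A : List ℕ
  B : List ℕ
  /-- functionals on the rational classes -/
  psi : List ℕ
  /-- the left inverse, `m` rows of `n` bits -/
  L1 : List ℕ
  L2 : List ℕ
  /-- masks of rational numbers dual to `psi` -/
  f : List ℕ
  /-- masks of the relative norms of the generators -/
  c1 : List ℕ
  c2 : List ℕ
  /-- relations -/
  ra : List ℕ
  rb : List ℕ
  /-- `psi` vanishes on the units -/
  S1 : List ℕ
  S2 : List ℕ
  S3 : List ℕ
  /-- the upper bound -/
  TA : List ℕ
  TB : List ℕ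
  /-- the generators -/
  gens : List GC

namespace Cert

/-- The odd primes. -/
def ps (c : Cert) : List ℕ := c.P12 ++ (c.P13 ++ c.P23)

/-- The number of bits of the masks. -/
def N (c : Cert) : ℕ := c.ps.length + 2

def g12 (c : Cert) : ℤ := (c.P12.prod : ℕ)
def g13 (c : Cert) : ℤ := (c.P13.prod : ℕ)
def g23 (c : Cert) : ℤ := ((2 * c.P23.prod : ℕ) : ℤ)

def m12 (c : Cert) : ℕ := 2 ^ (2 + c.P12.length) - 2 ^ 2
def m13 (c : Cert) : ℕ := 2 ^ (2 + c.P12.length + c.P13.length) - 2 ^ (2 + c.P12.length)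
def m23 (c : Cert) : ℕ := 2 ^ (2 + c.P12.length + c.P13.length + c.P23.length) -
  2 ^ (2 + c.P12.length + c.P13.length)

/-- Masks of the radicands `g12 g13`, `g12 g23`, `g13 g23`. -/
def d1m (c : Cert) : ℕ := c.m12 + c.m13
def d2m (c : Cert) : ℕ := c.m12 + c.m23 + 2
def d3m (c : Cert) : ℕ := c.m13 + c.m23 + 2

/-- Entry `i` of a list of numbers. -/
def gt (l : List ℕ) (i : ℕ) : ℕ := l.getD i 0

/-- The mask with the only bit `i`, if the Boolean is true. -/
def bt (b : Bool) (i : ℕ) : ℕ := if b then 2 ^ i else 0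

/-- The conditions `Adm` for the radicand with mask `dk`. -/
def consK (N : ℕ) (chi : List ℕ) (dk : ℕ) : List ℕ :=
  (List.range (N - 2)).map fun i =>
    if dk.testBit (i + 2) then
      gt chi i ^^^ bt (par N (gt chi i &&& (dk ^^^ 1))) (i + 2)
    else 2 ^ (i + 2)

/-- The conditions `Trip`, two for each prime. -/
def consP (c : Cert) : List (ℕ × ℕ) :=
  (List.range (c.N - 2)).flatMap fun i =>
    if c.m12.testBit (i + 2) then
      [(2 ^ (i + 2), 2 ^ (i + 2)),
        (gt c.chi i ^^^ bt (par c.N (gt c.chi i &&& c.d3m)) (i + 2), gt c.chi i)]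
    else if c.m13.testBit (i + 2) then
      [(0, 2 ^ (i + 2)), (bt (par c.N (gt c.chi i &&& c.d2m)) (i + 2), gt c.chi i)]
    else
      [(2 ^ (i + 2), 0), (gt c.chi i, bt (par c.N (gt c.chi i &&& c.d1m)) (i + 2))]

/-- Primes and signs. -/
def ok1 (c : Cert) : Bool :=
  c.ps.all primeB && decide c.ps.Nodup && decide (c.P12.prod * c.P13.prod % 4 = 3) &&
  (c.P12 ++ c.P13).any (fun p => decide (p % 4 = 3)) &&
  (c.P12 ++ c.P23).any (fun p => decide (p % 4 = 3)) &&
  (c.P13 ++ c.P23).any (fun p => decide (p % 4 = 3))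

/-- The table of quadratic residues. -/
def ok2 (c : Cert) : Bool := decide (c.chi = c.ps.map (chiM c.ps))

/-- The lists of conditions. -/
def ok3 (c : Cert) : Bool :=
  decide (c.k1 = consK c.N c.chi c.d1m) && decide (c.k2 = consK c.N c.chi c.d2m) &&
  decide (c.k3 = consK c.N c.chi c.d3m) && decide (c.kp = c.consP)

/-- The conditions `kk` have only the solutions `dk ^ e1 * rk ^ e2`, up to sign. -/
def okK (N : ℕ) (kk : List ℕ) (dk rk : ℕ) (F : ℕ × ℕ) (Kk : List ℕ) : Bool :=
  (List.range (N - 1)).all fun b =>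
    decide ((2 ^ (b + 1) ^^^ (if dk.testBit (b + 1) then F.1 else 0)) ^^^
      (if rk.testBit (b + 1) then F.2 else 0) = xorSel kk (gt Kk b))

def ok4 (c : Cert) : Bool :=
  okK c.N c.k1 c.d1m c.r1 c.F1 c.K1 && okK c.N c.k2 c.d2m c.r2 c.F2 c.K2 &&
  okK c.N c.k3 c.d3m c.r3 c.F3 c.K3

/-- The functionals vanish on the units. -/
def ok5 (c : Cert) : Bool :=
  (List.range c.n).all fun j =>
    decide (gt c.psi j % 2 = 0) && decide (gt c.psi j = xorSel c.k1 (gt c.S1 j)) &&
    decide (gt c.psi j = xorSel c.k2 (gt c.S2 j)) && decide (gt c.psi j = xorSel c.k3 (gt c.S3 j))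

/-- The sum of the rows `k` of the left inverse for which bit `j` of `X k` is set. -/
def urow (c : Cert) (X : List ℕ) (j : ℕ) : ℕ → ℕ × ℕ
  | 0 => (0, 0)
  | k + 1 =>
    if (gt X k).testBit j then
      ((urow c X j k).1 ^^^ xorSel c.psi (gt c.L1 k), (urow c X j k).2 ^^^ xorSel c.psi (gt c.L2 k))
    else urow c X j k

/-- The upper bound. -/
def ok6 (c : Cert) : Bool :=
  (List.range c.n).all fun j =>
    decide (((urow c c.A j c.m).1 ^^^ gt c.psi j, (urow c c.A j c.m).2) =
      xorSel2 c.kp (gt c.TA j)) &&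
    decide (((urow c c.B j c.m).1, (urow c c.B j c.m).2 ^^^ gt c.psi j) =
      xorSel2 c.kp (gt c.TB j))

/-- The dual family. -/
def ok7 (c : Cert) : Bool :=
  decide (c.psi.length = c.n) && decide (c.f.length = c.n) &&
  (List.range c.n).all fun j => (List.range c.n).all fun k =>
    par c.N (gt c.psi j &&& gt c.f k) == decide (j = k)

/-- The relations in the submodule. -/
def ok8 (c : Cert) : Bool :=
  (List.range c.m).all fun j =>
    decide (gt c.c1 j ^^^ xorSel c.f (gt c.A j) =
      xorSel [1, c.d1m, c.d2m, c.r1, c.r2, c.r3] (gt c.ra j)) &&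
    decide (gt c.c2 j ^^^ xorSel c.f (gt c.B j) =
      xorSel [1, c.d1m, c.d2m, c.r1, c.r2, c.r3] (gt c.rb j))

/-- The left inverse. -/
def ok9 (c : Cert) : Bool :=
  (List.range c.m).all fun j => (List.range c.m).all fun k =>
    xor (par c.n (gt c.L1 k &&& gt c.A j)) (par c.n (gt c.L2 k &&& gt c.B j)) == decide (j = k)

/-- The generators. -/
def ok10 (c : Cert) : Bool :=
  decide (c.gens.length = c.m) &&
  (List.range c.m).all fun j =>
    match c.gens[j]? with
    | none => false
    | some g => g.ok c.g12 c.g13 c.g23 (valM c.ps (gt c.c1 j)) (valM c.ps (gt c.c2 j))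

/-- The whole check. -/
def ok (c : Cert) : Bool :=
  c.ok1 && c.ok2 && c.ok3 && c.ok4 && c.ok5 && c.ok6 && c.ok7 && c.ok8 && c.ok9 && c.ok10

/-- The matrix with given columns. -/
def mat (m n : ℕ) (X : List ℕ) : Matrix (Fin n) (Fin m) (ZMod 2) :=
  Matrix.of fun i j => bitz (gt X j) i

/-- The matrix with given rows. -/
def matR (m n : ℕ) (X : List ℕ) : Matrix (Fin m) (Fin n) (ZMod 2) :=
  Matrix.of fun i j => bitz (gt X i) j

end Cert

/-- The functional with values in `𝔽₂ⁿ` given by the masks `psi`. -/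
noncomputable def psiF (c : Cert) (a : ℚ) : Fin c.n → ZMod 2 :=
  fun j => dot c.N (co c.ps a) (Cert.gt c.psi j)

end Pool.Agent.Helper69.BQ
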