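import Pool.Agent.Helper69.BQ.Statement

/-!
# The listed modules are indecomposable
-/

namespace Pool.Agent.Helper69.BQ

open Module

section transport

/-- Indecomposability is invariant under isomorphism. -/
lemma indecomposable_of_iso {V W : Type} [AddCommGroup V] [Module (ZMod 2) V] [AddCommGroup W]
    [Module (ZMod 2) W] {ρ : Representation (ZMod 2) C22 V} {ρ' : Representation (ZMod 2) C22 W}
    (h : Iso ρ ρ') (h' : Indecomposable ρ') : Indecomposable ρ := by
  obtain ⟨e, he⟩ := h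
  obtain ⟨hn, h'⟩ := h'
  refine ⟨e.toEquiv.nontrivial, ?_⟩
  intro p q hp hq hpq
  have key : ∀ s : Submodule (ZMod 2) V, (∀ g, ∀ v ∈ s, ρ g v ∈ s) →
      ∀ g, ∀ v ∈ s.map (e : V →ₗ[ZMod 2] W), ρ' g v ∈ s.map (e : V →ₗ[ZMod 2] W) := by
    rintro s hs g _ ⟨v, hv, rfl⟩
    exact ⟨ρ g v, hs g v hv, he g v⟩
  have hc : IsCompl (p.map (e : V →ₗ[ZMod 2] W)) (q.map (e : V →ₗ[ZMod 2] W)) :=
    (Submodule.orderIsoMapComap e).isCompl hpq
  have hb : ∀ s : Submodule (ZMod 2) V, s.map (e : V →ₗ[ZMod 2] W) = ⊥ → s = ⊥ := by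
    intro s hs
    rw [Submodule.map_eq_bot_iff] at hs
    exact hs
  rcases h' _ _ (key p hp) (key q hq) hc with h | h
  · exact Or.inl (hb p h)
  · exact Or.inr (hb q h)

/-- Indecomposability is invariant under twists. -/
lemma indecomposable_of_twist {V : Type} [AddCommGroup V] [Module (ZMod 2) V]
    {ρ : Representation (ZMod 2) C22 V} (θ : C22 ≃* C22)
    (h : Indecomposable (V := V) (MonoidHom.comp ρ θ.toMonoidHom : Representation (ZMod 2) C22 V)) :
    Indecomposable ρ := by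
  obtain ⟨hn, h⟩ := h
  refine ⟨hn, fun p q hp hq hpq => ?_⟩
  exact h p q (fun g v hv => hp (θ g) v hv) (fun g v hv => hq (θ g) v hv) hpq

end transport

section kro

variable {m n : ℕ} {A B : Matrix (Fin n) (Fin m) (ZMod 2)}

/-- The first components. -/
def pU (p : Submodule (ZMod 2) ((Fin m → ZMod 2) × (Fin n → ZMod 2))) :
    Submodule (ZMod 2) (Fin m → ZMod 2) := p.map (LinearMap.fst _ _ _)

/-- The elements with first component zero. -/
def pW (p : Submodule (ZMod 2) ((Fin m → ZMod 2) × (Fin n → ZMod 2))) :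
    Submodule (ZMod 2) (Fin n → ZMod 2) := p.comap (LinearMap.inr _ _ _)

/-- A subspace is stable. -/
def Stab (A B : Matrix (Fin n) (Fin m) (ZMod 2))
    (p : Submodule (ZMod 2) ((Fin m → ZMod 2) × (Fin n → ZMod 2))) : Prop :=
  ∀ g, ∀ v ∈ p, kroRep A B g v ∈ p

lemma kro10 (u : Fin m → ZMod 2) (w : Fin n → ZMod 2) :
    kroRep A B (Multiplicative.ofAdd (1, 0)) (u, w) = (u, w + A.mulVec u) := by
  show (u, w + (1 : ZMod 2) • A.mulVec u + (0 : ZMod 2) • B.mulVec u) = _
  rw [one_smul, zero_smul, add_zero]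

lemma kro01 (u : Fin m → ZMod 2) (w : Fin n → ZMod 2) :
    kroRep A B (Multiplicative.ofAdd (0, 1)) (u, w) = (u, w + B.mulVec u) := by
  show (u, w + (0 : ZMod 2) • A.mulVec u + (1 : ZMod 2) • B.mulVec u) = _
  rw [one_smul, zero_smul, add_zero]

lemma A_mem {p : Submodule (ZMod 2) ((Fin m → ZMod 2) × (Fin n → ZMod 2))} (hp : Stab A B p)
    {u : Fin m → ZMod 2} (hu : u ∈ pU p) : A.mulVec u ∈ pW p := by
  obtain ⟨⟨u, w⟩, hv, rfl⟩ := hu
  have := p.sub_mem (hp (Multiplicative.ofAdd (1, 0)) _ hv) hv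
  rw [kro10] at this
  show ((0 : Fin m → ZMod 2), A.mulVec u) ∈ p
  convert this using 1
  ext <;> simp

lemma B_mem {p : Submodule (ZMod 2) ((Fin m → ZMod 2) × (Fin n → ZMod 2))} (hp : Stab A B p)
    {u : Fin m → ZMod 2} (hu : u ∈ pU p) : B.mulVec u ∈ pW p := by
  obtain ⟨⟨u, w⟩, hv, rfl⟩ := hu
  have := p.sub_mem (hp (Multiplicative.ofAdd (0, 1)) _ hv) hv
  rw [kro01] at this
  show ((0 : Fin m → ZMod 2), B.mulVec u) ∈ p
  convert this using 1
  ext <;> simp

lemma eq_bot_of {p : Submodule (ZMod 2) ((Fin m → ZMod 2) × (Fin n → ZMod 2))}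
    (h1 : pU p = ⊥) (h2 : pW p = ⊥) : p = ⊥ := by
  rw [eq_bot_iff]
  rintro ⟨u, w⟩ hv
  have hu : u ∈ pU p := ⟨(u, w), hv, rfl⟩
  rw [h1] at hu
  have hu' : u = 0 := hu
  subst hu'
  have hw : w ∈ pW p := hv
  rw [h2] at hw
  have hw' : w = 0 := hw
  subst hw'
  exact Submodule.zero_mem _

/-- The decomposition of the two layers. -/
lemma layers {p q : Submodule (ZMod 2) ((Fin m → ZMod 2) × (Fin n → ZMod 2))} (hp : Stab A B p)
    (hq : Stab A B q) (hpq : IsCompl p q)
    (hAB : LinearMap.range A.mulVecLin ⊔ LinearMap.range B.mulVecLin = ⊤) :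
    IsCompl (pU p) (pU q) ∧ IsCompl (pW p) (pW q) := by
  have htop : ∀ v, ∃ a ∈ p, ∃ b ∈ q, a + b = v := by
    intro v
    have : v ∈ p ⊔ q := by rw [hpq.sup_eq_top]; trivial
    exact Submodule.mem_sup.1 this
  have hbot : ∀ v, v ∈ p → v ∈ q → v = 0 := by
    intro v h1 h2
    have : v ∈ p ⊓ q := ⟨h1, h2⟩
    rw [hpq.inf_eq_bot] at this
    exact this
  have hUtop : ∀ u, ∃ a ∈ pU p, ∃ b ∈ pU q, a + b = u := by
    intro u
    obtain ⟨a, ha, b, hb, hab⟩ := htop (u, 0)
    refine ⟨a.1, ⟨a, ha, rfl⟩, b.1, ⟨b, hb, rfl⟩, ?_⟩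
    exact congrArg Prod.fst hab
  have hWtop : ∀ w, ∃ a ∈ pW p, ∃ b ∈ pW q, a + b = w := by
    intro w
    have hw : w ∈ LinearMap.range A.mulVecLin ⊔ LinearMap.range B.mulVecLin := by
      rw [hAB]; trivial
    obtain ⟨_, ⟨u1, rfl⟩, _, ⟨u2, rfl⟩, rfl⟩ := Submodule.mem_sup.1 hw
    obtain ⟨a1, ha1, b1, hb1, rfl⟩ := hUtop u1
    obtain ⟨a2, ha2, b2, hb2, rfl⟩ := hUtop u2
    refine ⟨A.mulVec a1 + B.mulVec a2, Submodule.add_mem _ (A_mem hp ha1) (B_mem hp ha2),
      A.mulVec b1 + B.mulVec b2, Submodule.add_mem _ (A_mem hq hb1) (B_mem hq hb2), ?_⟩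
    rw [Matrix.mulVecLin_apply, Matrix.mulVecLin_apply, Matrix.mulVec_add, Matrix.mulVec_add]
    abel
  constructor
  · refine IsCompl.of_eq ?_ ?_
    · rw [eq_bot_iff]
      rintro u ⟨⟨⟨u1, w⟩, hv, hu⟩, ⟨⟨u2, w'⟩, hv', hu'⟩⟩
      have e1 : u1 = u := hu
      have e2 : u2 = u := hu'
      subst e1
      subst e2
      obtain ⟨a, ha, b, hb, hab⟩ := hWtop (w - w')
      have ha' : ((0 : Fin m → ZMod 2), a) ∈ p := ha
      have hb' : ((0 : Fin m → ZMod 2), b) ∈ q := hb
      have h1 := p.sub_mem hv ha'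
      have h2 := q.add_mem hv' hb'
      have e : (u2, w) - ((0 : Fin m → ZMod 2), a) = (u2, w') + ((0 : Fin m → ZMod 2), b) := by
        apply Prod.ext
        · simp
        · show w - a = w' + b
          have : w - w' = a + b := hab.symm
          rw [sub_eq_iff_eq_add] at this ⊢
          rw [this]
          abel
      rw [← e] at h2
      have := hbot _ h1 h2
      have h0 := congrArg Prod.fst this
      simpa using h0
    · rw [eq_top_iff]
      intro u _
      exact Submodule.mem_sup.2 (hUtop u)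
  · refine IsCompl.of_eq ?_ ?_
    · rw [eq_bot_iff]
      rintro w ⟨h1, h2⟩
      have h1' : ((0 : Fin m → ZMod 2), w) ∈ p := h1
      have h2' : ((0 : Fin m → ZMod 2), w) ∈ q := h2
      exact congrArg Prod.snd (hbot _ h1' h2')
    · rw [eq_top_iff]
      intro w _
      exact Submodule.mem_sup.2 (hWtop w)

end kro

section P

/-- The two matrices of the second family. -/
abbrev PA (n : ℕ) : Matrix (Fin (n + 1)) (Fin n) (ZMod 2) :=
  Matrix.of fun i j => if i = j.castSucc then 1 else 0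

abbrev PB (n : ℕ) : Matrix (Fin (n + 1)) (Fin n) (ZMod 2) :=
  Matrix.of fun i j => if i = j.succ then 1 else 0

lemma PA_castSucc (n : ℕ) (u : Fin n → ZMod 2) (j : Fin n) : (PA n).mulVec u j.castSucc = u j := by
  simp only [Matrix.mulVec, dotProduct, Matrix.of_apply, ite_mul, one_mul, zero_mul]
  rw [Finset.sum_eq_single j]
  · simp
  · intro b _ hb
    rw [if_neg]
    intro h
    exact hb (Fin.castSucc_injective n h).symm
  · simp

lemma PA_last (n : ℕ) (u : Fin n → ZMod 2) : (PA n).mulVec u (Fin.last n) = 0 := by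
  simp only [Matrix.mulVec, dotProduct, Matrix.of_apply, ite_mul, one_mul, zero_mul]
  apply Finset.sum_eq_zero
  intro b _
  rw [if_neg (Fin.castSucc_lt_last b).ne']

lemma PB_succ (n : ℕ) (u : Fin n → ZMod 2) (j : Fin n) : (PB n).mulVec u j.succ = u j := by
  simp only [Matrix.mulVec, dotProduct, Matrix.of_apply, ite_mul, one_mul, zero_mul]
  rw [Finset.sum_eq_single j]
  · simp
  · intro b _ hb
    rw [if_neg]
    intro h
    exact hb (Fin.succ_injective n h).symm
  · simp

lemma PB_zero (n : ℕ) (u : Fin n → ZMod 2) : (PB n).mulVec u 0 = 0 := by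
  simp only [Matrix.mulVec, dotProduct, Matrix.of_apply, ite_mul, one_mul, zero_mul]
  apply Finset.sum_eq_zero
  intro b _
  rw [if_neg (Fin.succ_ne_zero b).symm]

lemma PA_inj (n : ℕ) : Function.Injective (PA n).mulVecLin := by
  intro u v h
  funext j
  have := congrFun h j.castSucc
  simpa only [Matrix.mulVecLin_apply, PA_castSucc] using this

/-- The key inequality. -/
lemma P_key (n : ℕ) (S : Submodule (ZMod 2) (Fin n → ZMod 2)) (hS : S ≠ ⊥)
    (T : Submodule (ZMod 2) (Fin (n + 1) → ZMod 2)) (hA : ∀ u ∈ S, (PA n).mulVec u ∈ T)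
    (hB : ∀ u ∈ S, (PB n).mulVec u ∈ T) : finrank (ZMod 2) S + 1 ≤ finrank (ZMod 2) T := by
  classical
  have h1 : finrank (ZMod 2) (S.map (PA n).mulVecLin) = finrank (ZMod 2) S :=
    LinearEquiv.finrank_eq (Submodule.equivMapOfInjective _ (PA_inj n) S).symm
  have hle : S.map (PA n).mulVecLin ≤ T := by
    rintro _ ⟨u, hu, rfl⟩
    exact hA u hu
  rw [← h1, Nat.succ_le_iff]
  apply Submodule.finrank_lt_finrank_of_lt
  refine lt_of_le_of_ne hle ?_
  intro heq
  -- the largest index at which an element of `S` is nonzero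
  obtain ⟨u0, hu0, hne⟩ := (Submodule.ne_bot_iff S).1 hS
  obtain ⟨j0, hj0⟩ := Function.ne_iff.1 hne
  set F : Finset (Fin n) := Finset.univ.filter fun j => ∃ u ∈ S, u j ≠ 0 with hF
  have hFne : F.Nonempty := ⟨j0, by
    rw [hF, Finset.mem_filter]
    exact ⟨Finset.mem_univ _, u0, hu0, hj0⟩⟩
  obtain ⟨-, u, hu, huj⟩ := Finset.mem_filter.1 (F.max'_mem hFne)
  have hmax : ∀ j, (∃ u ∈ S, u j ≠ 0) → j ≤ F.max' hFne := fun j hj =>
    F.le_max' j (Finset.mem_filter.2 ⟨Finset.mem_univ _, hj⟩)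
  set j := F.max' hFne with hj
  have hmem := hB u hu
  rw [← heq] at hmem
  obtain ⟨v, hv, hvu⟩ := hmem
  have hc := congrFun hvu j.succ
  rw [Matrix.mulVecLin_apply, PB_succ] at hc
  by_cases hlast : (j : ℕ) + 1 = n
  · have e : j.succ = Fin.last n := Fin.ext (by simpa using hlast)
    rw [e, PA_last] at hc
    exact huj hc.symm
  · have hlt : (j : ℕ) + 1 < n := lt_of_le_of_ne j.2 hlast
    have e : j.succ = (⟨(j : ℕ) + 1, hlt⟩ : Fin n).castSucc := Fin.ext (by simp)
    rw [e, PA_castSucc] at hc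
    have := hmax ⟨(j : ℕ) + 1, hlt⟩ ⟨v, hv, by rw [hc]; exact huj⟩
    rw [Fin.le_def] at this
    simp at this

lemma P_top (n : ℕ) (hn : 1 ≤ n) :
    LinearMap.range (PA n).mulVecLin ⊔ LinearMap.range (PB n).mulVecLin = ⊤ := by
  rw [eq_top_iff]
  intro w _
  obtain ⟨k, rfl⟩ : ∃ k, n = k + 1 := ⟨n - 1, by omega⟩
  refine Submodule.mem_sup.2 ⟨(PA (k + 1)).mulVec (fun j => w j.castSucc), ⟨_, rfl⟩,
    (PB (k + 1)).mulVec (fun j => if j = Fin.last k then w (Fin.last (k + 1)) else 0),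
    ⟨_, rfl⟩, ?_⟩
  funext i
  rw [Pi.add_apply]
  refine Fin.cases ?_ (fun i => ?_) i
  · rw [PB_zero, add_zero]
    exact PA_castSucc (k + 1) (fun j => w j.castSucc) 0
  · rw [PB_succ]
    by_cases hi : i = Fin.last k
    · rw [if_pos hi, hi, Fin.succ_last, PA_last, zero_add]
    · rw [if_neg hi, add_zero]
      have hlt : (i : ℕ) + 1 < k + 1 := by
        have := Fin.val_lt_last hi
        omega
      have e : i.succ = (⟨(i : ℕ) + 1, hlt⟩ : Fin (k + 1)).castSucc := Fin.ext (by simp)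
      rw [e, PA_castSucc]

/-- The modules of the second family are indecomposable. -/
theorem indec_P (n : ℕ) (hn : 1 ≤ n) : Indecomposable (kroRep (PA n) (PB n)) := by
  have : Nonempty (Fin n) := ⟨⟨0, hn⟩⟩
  refine ⟨inferInstance, ?_⟩
  intro p q hp hq hpq
  obtain ⟨hU, hW⟩ := layers hp hq hpq (P_top n hn)
  have dU := Submodule.finrank_add_eq_of_isCompl hU
  have dW := Submodule.finrank_add_eq_of_isCompl hW
  rw [finrank_pi, Fintype.card_fin] at dU dW
  -- the case where one of the first layers vanishes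
  have key : ∀ p q : Submodule (ZMod 2) ((Fin n → ZMod 2) × (Fin (n + 1) → ZMod 2)),
      Stab (PA n) (PB n) p → IsCompl (pU p) (pU q) → IsCompl (pW p) (pW q) → pU q = ⊥ → q = ⊥ := by
    intro p q hp hU hW h0
    apply eq_bot_of h0
    have hpt : pU p = ⊤ := by
      have := hU.sup_eq_top
      rwa [h0, sup_bot_eq] at this
    have hWt : pW p = ⊤ := by
      rw [eq_top_iff, ← P_top n hn, sup_le_iff]
      constructor
      · rintro _ ⟨u, rfl⟩
        exact A_mem hp (by rw [hpt]; trivial)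
      · rintro _ ⟨u, rfl⟩
        exact B_mem hp (by rw [hpt]; trivial)
    have := hW.inf_eq_bot
    rwa [hWt, top_inf_eq] at this
  by_cases h1 : pU p = ⊥
  · exact Or.inl (key q p hq hU.symm hW.symm h1)
  by_cases h2 : pU q = ⊥
  · exact Or.inr (key p q hp hU hW h2)
  exfalso
  have k1 := P_key n (pU p) h1 (pW p) (fun u hu => A_mem hp hu) (fun u hu => B_mem hp hu)
  have k2 := P_key n (pU q) h2 (pW q) (fun u hu => A_mem hq hu) (fun u hu => B_mem hq hu)
  omega

end P

open Matrix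

section dual

variable {m n : ℕ}

/-- The pairing between the module of a pair of matrices and that of the transposed pair. -/
def pairing (m n : ℕ) : ((Fin n → ZMod 2) × (Fin m → ZMod 2)) →ₗ[ZMod 2]
    Dual (ZMod 2) ((Fin m → ZMod 2) × (Fin n → ZMod 2)) :=
  LinearMap.mk₂ (ZMod 2) (fun x y => x.1 ⬝ᵥ y.2 + x.2 ⬝ᵥ y.1)
    (fun x x' y => by
      show (x.1 + x'.1) ⬝ᵥ y.2 + (x.2 + x'.2) ⬝ᵥ y.1 = _
      rw [add_dotProduct, add_dotProduct]
      abel)
    (fun c x y => by
      show (c • x.1) ⬝ᵥ y.2 + (c • x.2) ⬝ᵥ y.1 = _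
      rw [smul_dotProduct, smul_dotProduct, smul_add])
    (fun x y y' => by
      show x.1 ⬝ᵥ (y.2 + y'.2) + x.2 ⬝ᵥ (y.1 + y'.1) = _
      rw [dotProduct_add, dotProduct_add]
      abel)
    (fun c x y => by
      show x.1 ⬝ᵥ (c • y.2) + x.2 ⬝ᵥ (c • y.1) = _
      rw [dotProduct_smul, dotProduct_smul, smul_add])

lemma pairing_apply (x : (Fin n → ZMod 2) × (Fin m → ZMod 2))
    (y : (Fin m → ZMod 2) × (Fin n → ZMod 2)) :
    pairing m n x y = x.1 ⬝ᵥ y.2 + x.2 ⬝ᵥ y.1 := rfl

lemma pairing_inj : Function.Injective (pairing m n) := by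
  rw [← LinearMap.ker_eq_bot, eq_bot_iff]
  rintro ⟨g, h⟩ hx
  have hx' : ∀ y, pairing m n (g, h) y = 0 := fun y => LinearMap.congr_fun hx y
  have h1 : g = 0 := by
    funext i
    have := hx' (0, Pi.single i 1)
    rw [pairing_apply] at this
    simpa using this
  have h2 : h = 0 := by
    funext i
    have := hx' (Pi.single i 1, 0)
    rw [pairing_apply] at this
    simpa using this
  rw [h1, h2]
  exact Submodule.zero_mem _

/-- The pairing as an isomorphism to the dual space. -/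
noncomputable def pairingEquiv (m n : ℕ) : ((Fin n → ZMod 2) × (Fin m → ZMod 2)) ≃ₗ[ZMod 2]
    Dual (ZMod 2) ((Fin m → ZMod 2) × (Fin n → ZMod 2)) :=
  LinearEquiv.ofInjectiveOfFinrankEq (pairing m n) pairing_inj (by
    rw [Subspace.dual_finrank_eq, finrank_prod, finrank_prod]
    exact add_comm _ _)

lemma pairingEquiv_apply (x : (Fin n → ZMod 2) × (Fin m → ZMod 2))
    (y : (Fin m → ZMod 2) × (Fin n → ZMod 2)) :
    pairingEquiv m n x y = x.1 ⬝ᵥ y.2 + x.2 ⬝ᵥ y.1 := rfl

lemma pairing_kro (A B : Matrix (Fin n) (Fin m) (ZMod 2)) (g : C22)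
    (x : (Fin n → ZMod 2) × (Fin m → ZMod 2)) (y : (Fin m → ZMod 2) × (Fin n → ZMod 2)) :
    pairingEquiv m n (kroRep Aᵀ Bᵀ g x) y = pairingEquiv m n x (kroRep A B g y) := by
  rw [pairingEquiv_apply, pairingEquiv_apply]
  show x.1 ⬝ᵥ y.2 + (x.2 + (Multiplicative.toAdd g).1 • Aᵀ *ᵥ x.1 +
    (Multiplicative.toAdd g).2 • Bᵀ *ᵥ x.1) ⬝ᵥ y.1 =
    x.1 ⬝ᵥ (y.2 + (Multiplicative.toAdd g).1 • A *ᵥ y.1 +
    (Multiplicative.toAdd g).2 • B *ᵥ y.1) + x.2 ⬝ᵥ y.1
  rw [add_dotProduct, add_dotProduct, dotProduct_add, dotProduct_add, smul_dotProduct,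
    smul_dotProduct, dotProduct_smul, dotProduct_smul, mulVec_transpose, mulVec_transpose,
    ← dotProduct_mulVec, ← dotProduct_mulVec]
  abel

/-- Indecomposability of the transposed pair. -/
theorem indec_transpose (A B : Matrix (Fin n) (Fin m) (ZMod 2))
    (h : Indecomposable (kroRep Aᵀ Bᵀ)) : Indecomposable (kroRep A B) := by
  obtain ⟨hn, h⟩ := h
  refine ⟨?_, ?_⟩
  · rw [← finrank_pos_iff (R := ZMod 2)] at hn ⊢
    rw [finrank_prod] at hn ⊢
    omega
  · intro p q hp hq hpq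
    set e := pairingEquiv m n with he
    have st : ∀ s : Submodule (ZMod 2) ((Fin m → ZMod 2) × (Fin n → ZMod 2)),
        (∀ g, ∀ v ∈ s, kroRep A B g v ∈ s) →
        ∀ g, ∀ v ∈ s.dualAnnihilator.comap e.toLinearMap,
          kroRep Aᵀ Bᵀ g v ∈ s.dualAnnihilator.comap e.toLinearMap := by
      intro s hs g v hv
      rw [Submodule.mem_comap, Submodule.mem_dualAnnihilator] at hv ⊢
      intro w hw
      have := hv _ (hs g w hw)
      rw [← this]
      exact pairing_kro A B g v w
    have hc : IsCompl (p.dualAnnihilator.comap e.toLinearMap)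
        (q.dualAnnihilator.comap e.toLinearMap) := by
      have h1 : IsCompl p.dualAnnihilator q.dualAnnihilator := by
        have := (Subspace.orderIsoFiniteDimensional (K := ZMod 2)
          (V := (Fin m → ZMod 2) × (Fin n → ZMod 2))).isCompl hpq
        exact this.ofDual
      have h2 := (Submodule.orderIsoMapComap e.symm).isCompl h1
      have h3 : ∀ s : Submodule (ZMod 2) (Dual (ZMod 2) ((Fin m → ZMod 2) × (Fin n → ZMod 2))),
          Submodule.orderIsoMapComap e.symm s = s.comap e.toLinearMap := by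
        intro s
        exact Submodule.map_equiv_eq_comap_symm e.symm s
      rw [h3, h3] at h2
      exact h2
    have hb : ∀ s : Submodule (ZMod 2) ((Fin m → ZMod 2) × (Fin n → ZMod 2)),
        s.dualAnnihilator.comap e.toLinearMap = ⊥ → s = ⊤ := by
      intro s hs
      have h1 : s.dualAnnihilator = ⊥ := by
        rw [eq_bot_iff]
        intro f hf
        have : e.symm f ∈ s.dualAnnihilator.comap e.toLinearMap := by
          rw [Submodule.mem_comap]
          simpa using hf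
        rw [hs] at this
        have h0 : e.symm f = 0 := this
        rw [LinearEquiv.symm_apply_eq, map_zero] at h0
        rw [h0]
        exact Submodule.zero_mem _
      exact Submodule.dualAnnihilator_eq_bot_iff.1 h1
    rcases h _ _ (st p hp) (st q hq) hc with h | h
    · right
      have := hpq.inf_eq_bot
      rwa [hb p h, top_inf_eq] at this
    · left
      have := hpq.inf_eq_bot
      rwa [hb q h, inf_top_eq] at this

/-- The modules of the first family are indecomposable. -/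
theorem indec_I (n : ℕ) (hn : 1 ≤ n) : Indecomposable (kroRep (m := n + 1) (n := n)
      (Matrix.of fun i j => if j = i.castSucc then 1 else 0)
      (Matrix.of fun i j => if j = i.succ then 1 else 0)) :=
  indec_transpose _ _ (indec_P n hn)

/-- A one-dimensional module is indecomposable. -/
theorem indec_I0 : Indecomposable (kroRep (m := 0 + 1) (n := 0)
      (Matrix.of fun i j => if j = i.castSucc then 1 else 0)
      (Matrix.of fun i j => if j = i.succ then 1 else 0)) := by
  refine ⟨inferInstance, ?_⟩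
  intro p q _ _ hpq
  have h := Submodule.finrank_add_eq_of_isCompl hpq
  rw [finrank_prod, finrank_pi, finrank_pi, Fintype.card_fin, Fintype.card_fin] at h
  rw [← Submodule.finrank_eq_zero (R := ZMod 2), ← Submodule.finrank_eq_zero (R := ZMod 2)]
  omega

end dual

section cyclic

lemma pow_mem_of {n : ℕ} {B : Matrix (Fin n) (Fin n) (ZMod 2)}
    {S : Submodule (ZMod 2) (Fin n → ZMod 2)} (hS : ∀ u ∈ S, B *ᵥ u ∈ S) (i : ℕ) :
    ∀ u ∈ S, (B ^ i) *ᵥ u ∈ S := by
  induction i with
  | zero => intro u hu; rwa [pow_zero, one_mulVec]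
  | succ i ih =>
    intro u hu
    rw [pow_succ, ← mulVec_mulVec]
    exact ih _ (hS u hu)

/-- The module of the identity and a cyclic matrix whose algebra has no idempotent. -/
theorem indec_cyclic {k : ℕ} (B : Matrix (Fin (k + 1)) (Fin (k + 1)) (ZMod 2))
    (hcyc : ∀ i : Fin (k + 1), (B ^ (i : ℕ)) *ᵥ Pi.single 0 1 = Pi.single i 1)
    (hid : ∀ v : Fin (k + 1) → ZMod 2, ∑ i : Fin (k + 1), v i • ((B ^ (i : ℕ)) *ᵥ v) = v →
      v = 0 ∨ v = Pi.single 0 1) : Indecomposable (kroRep 1 B) := by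
  refine ⟨inferInstance, ?_⟩
  intro p q hp hq hpq
  have htop : LinearMap.range (1 : Matrix (Fin (k + 1)) (Fin (k + 1)) (ZMod 2)).mulVecLin ⊔
      LinearMap.range B.mulVecLin = ⊤ := by
    rw [mulVecLin_one, LinearMap.range_id, top_sup_eq]
  obtain ⟨hU, hW⟩ := layers hp hq hpq htop
  have dU := Submodule.finrank_add_eq_of_isCompl hU
  have dW := Submodule.finrank_add_eq_of_isCompl hW
  have le1 : pU p ≤ pW p := fun u hu => by simpa using A_mem hp hu
  have le2 : pU q ≤ pW q := fun u hu => by simpa using A_mem hq hu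
  have f1 := Submodule.finrank_mono le1
  have f2 := Submodule.finrank_mono le2
  have e1 : pU p = pW p := Submodule.eq_of_le_of_finrank_eq le1 (by omega)
  have e2 : pU q = pW q := Submodule.eq_of_le_of_finrank_eq le2 (by omega)
  have s1 : ∀ u ∈ pU p, B *ᵥ u ∈ pU p := fun u hu => by
    have := B_mem hp hu
    rwa [← e1] at this
  have s2 : ∀ u ∈ pU q, B *ᵥ u ∈ pU q := fun u hu => by
    have := B_mem hq hu
    rwa [← e2] at this
  -- a subspace with `e₀` is everything
  have full : ∀ S : Submodule (ZMod 2) (Fin (k + 1) → ZMod 2), (∀ u ∈ S, B *ᵥ u ∈ S) →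
      Pi.single 0 1 ∈ S → S = ⊤ := by
    intro S hS h0
    rw [eq_top_iff]
    intro v _
    rw [pi_eq_sum_univ' v]
    refine Submodule.sum_mem _ fun i _ => ?_
    have h1 := pow_mem_of hS (i : ℕ) _ h0
    rw [hcyc] at h1
    have h2 := S.smul_mem (v i) h1
    convert h2 using 1
  have h0 : (Pi.single 0 1 : Fin (k + 1) → ZMod 2) ∈ pU p ⊔ pU q := by
    rw [hU.sup_eq_top]; trivial
  obtain ⟨v, hv, w, hw, hvw⟩ := Submodule.mem_sup.1 h0
  have hsum : ∑ i : Fin (k + 1), v i • ((B ^ (i : ℕ)) *ᵥ Pi.single 0 1) = v := by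
    funext j
    simp only [hcyc, Finset.sum_apply, Pi.smul_apply, Pi.single_apply, smul_eq_mul, mul_ite,
      mul_one, mul_zero]
    simp
  have hv1 : ∑ i : Fin (k + 1), v i • ((B ^ (i : ℕ)) *ᵥ v) ∈ pU p :=
    Submodule.sum_mem _ fun i _ => Submodule.smul_mem _ _ (pow_mem_of s1 i v hv)
  have hw1 : ∑ i : Fin (k + 1), v i • ((B ^ (i : ℕ)) *ᵥ w) ∈ pU q :=
    Submodule.sum_mem _ fun i _ => Submodule.smul_mem _ _ (pow_mem_of s2 i w hw)
  have hadd : ∑ i : Fin (k + 1), v i • ((B ^ (i : ℕ)) *ᵥ v) +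
      ∑ i : Fin (k + 1), v i • ((B ^ (i : ℕ)) *ᵥ w) = v := by
    rw [← Finset.sum_add_distrib]
    conv_rhs => rw [← hsum]
    refine Finset.sum_congr rfl fun i _ => ?_
    rw [← smul_add, ← mulVec_add, hvw]
  have hw0 : ∑ i : Fin (k + 1), v i • ((B ^ (i : ℕ)) *ᵥ w) = 0 := by
    have hmem : ∑ i : Fin (k + 1), v i • ((B ^ (i : ℕ)) *ᵥ w) ∈ pU p := by
      have := Submodule.sub_mem _ hv hv1
      have e : v - ∑ i : Fin (k + 1), v i • ((B ^ (i : ℕ)) *ᵥ v) =
        ∑ i : Fin (k + 1), v i • ((B ^ (i : ℕ)) *ᵥ w) := by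
        rw [sub_eq_iff_eq_add]
        exact (hadd.symm.trans (add_comm _ _))
      rwa [e] at this
    have : ∑ i : Fin (k + 1), v i • ((B ^ (i : ℕ)) *ᵥ w) ∈ pU p ⊓ pU q := ⟨hmem, hw1⟩
    rw [hU.inf_eq_bot] at this
    exact this
  rw [hw0, add_zero] at hadd
  rcases hid v hadd with h | h
  · left
    rw [h, zero_add] at hvw
    rw [hvw] at hw
    have hq1 := full _ s2 hw
    have hp1 : pU p = ⊥ := by
      have := hU.inf_eq_bot
      rwa [hq1, inf_top_eq] at this
    exact eq_bot_of hp1 (by rw [← e1, hp1])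
  · right
    rw [h] at hv
    have hp1 := full _ s1 hv
    have hq1 : pU q = ⊥ := by
      have := hU.inf_eq_bot
      rwa [hp1, top_inf_eq] at this
    exact eq_bot_of hq1 (by rw [← e2, hq1])

end cyclic

/-- **All listed modules are indecomposable.** -/
theorem listed_indec {m n : ℕ} {A B : Matrix (Fin n) (Fin m) (ZMod 2)} (h : Listed m n A B) :
    Indecomposable (kroRep A B) := by
  cases h with
  | I n hn =>
    rcases Nat.eq_zero_or_pos n with h0 | h0
    · subst h0
      exact indec_I0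
    · exact indec_I n h0
  | P _ h1 hn => exact indec_P m h1
  | N _ h1 hn =>
    interval_cases m
    · exact indec_cyclic _ (by decide +kernel) (by decide +kernel)
    · exact indec_cyclic _ (by decide +kernel) (by decide +kernel)
    · exact indec_cyclic _ (by decide +kernel) (by decide +kernel)
    · exact indec_cyclic _ (by decide +kernel) (by decide +kernel)
    · exact indec_cyclic _ (by decide +kernel) (by decide +kernel)
    · exact indec_cyclic _ (by decide +kernel) (by decide +kernel)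
  | R7 => exact indec_cyclic _ (by decide +kernel) (by decide +kernel)
  | R11 => exact indec_cyclic _ (by decide +kernel) (by decide +kernel)
  | R19 => exact indec_cyclic _ (by decide +kernel) (by decide +kernel)
  | R21 => exact indec_cyclic _ (by decide +kernel) (by decide +kernel)
  | R37 => exact indec_cyclic _ (by decide +kernel) (by decide +kernel)

/-- Everything in the list is indecomposable. -/
theorem indec_of_inList {V : Type} [AddCommGroup V] [Module (ZMod 2) V]
    {ρ : Representation (ZMod 2) C22 V} (h : InList ρ) : Indecomposable ρ := by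
  obtain ⟨m, n, A, B, θ, hl, hiso⟩ := h
  exact indecomposable_of_twist θ (indecomposable_of_iso hiso (listed_indec hl))

end Pool.Agent.Helper69.BQ
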