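import Pool.Agent.Helper69.BQ.Upper
import Pool.Agent.Helper69.BQ.Data.All
import Pool.Agent.Helper69.BQ.Indec
import Pool.Agent.Helper25.Kro.BQ

/-!
# The classification theorem (project BQ)
-/

namespace Pool.Agent.Helper69.BQ

open Module

/-- The trivial module as the first member of the first family. -/
lemma arises_I0 : Arises (kroRep (m := 0 + 1) (n := 0)
    (Matrix.of fun i j => if j = i.castSucc then 1 else 0)
    (Matrix.of fun i j => if j = i.succ then 1 else 0)) := by
  apply arises_iso (ρ' := kroRep (m := 0) (n := 1) 0 0) _ arises_P1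
  refine ⟨LinearEquiv.prodComm (ZMod 2) (Fin 1 → ZMod 2) (Fin 0 → ZMod 2), ?_⟩
  intro g v
  apply Prod.ext
  · exact Subsingleton.elim _ _
  · funext i
    show v.1 i = v.1 i + _ + _
    simp

/-- Every listed module arises. -/
theorem listed_arises {m n : ℕ} {A B : Matrix (Fin n) (Fin m) (ZMod 2)} (h : Listed m n A B) :
    Arises (kroRep A B) := by
  cases h with
  | I n hn =>
    interval_cases n
    · exact arises_I0
    · exact arises_I1
    · exact arises_I2
    · exact arises_I3
    · exact arises_I4
    · exact arises_I5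
  | P _ h1 hn =>
    interval_cases m
    · exact arises_P2
    · exact arises_P3
    · exact arises_P4
    · exact arises_P5
    · exact arises_P6
    · exact arises_P7
    · exact arises_P8
  | N _ h1 hn =>
    interval_cases m
    · exact arises_N1
    · exact arises_N2
    · exact arises_N3
    · exact arises_N4
    · exact arises_N5
    · exact arises_N6
  | R7 => exact arises_R7
  | R11 => exact arises_R11
  | R19 => exact arises_R19
  | R21 => exact arises_R21
  | R37 => exact arises_R37

/-- **Main theorem.** -/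
theorem main {V : Type} [AddCommGroup V] [Module (ZMod 2) V] [FiniteDimensional (ZMod 2) V]
    (ρ : Representation (ZMod 2) C22 V) (hρ : Indecomposable ρ) :
    List.TFAE [Arises ρ,
      (∀ v, ∑ g : C22, ρ g v = 0) ∧ finrank (ZMod 2) (repCore ρ) ≤ 5,
      InList ρ] := by
  tfae_have 1 → 2 := arises_bound hρ
  tfae_have 2 → 3 := fun h => Pool.Agent.Helper25.Kro.inList_of hρ h.1 h.2
  tfae_have 3 → 1 := by
    rintro ⟨m, n, A, B, θ, hl, hiso⟩
    exact arises_twist θ (arises_iso hiso (listed_arises hl))
  tfae_finish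

lemma onList_iff {V : Type} [AddCommGroup V] [Module (ZMod 2) V]
    (ρ : Representation (ZMod 2) C22 V) : OnList ρ ↔ InList ρ := by
  constructor
  · rintro ⟨m, n, A, B, θ, hl, e, he, h⟩
    exact ⟨m, n, A, B, θ, hl, LinearEquiv.ofBijective e he,
      fun g v => h (Multiplicative.toAdd g).1 (Multiplicative.toAdd g).2 v⟩
  · rintro ⟨m, n, A, B, θ, hl, e, h⟩
    exact ⟨m, n, A, B, θ, hl, e.toLinearMap, e.bijective,
      fun a b v => h (Multiplicative.ofAdd (a, b)) v⟩

/-- **Main theorem**, with indecomposability of the listed modules. -/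
theorem main_full {V : Type} [AddCommGroup V] [Module (ZMod 2) V] [FiniteDimensional (ZMod 2) V]
    (ρ : Representation (ZMod 2) C22 V) :
    List.TFAE [Indecomposable ρ ∧ Arises ρ,
      Indecomposable ρ ∧ (∀ v, ∑ g : C22, ρ g v = 0) ∧ finrank (ZMod 2) (repCore ρ) ≤ 5,
      OnList ρ] := by
  rw [onList_iff]
  tfae_have 1 → 2 := fun h => ⟨h.1, ((main ρ h.1).out 0 1).1 h.2⟩
  tfae_have 2 → 3 := fun h => ((main ρ h.1).out 1 2).1 h.2
  tfae_have 3 → 1 := fun h => ⟨indec_of_inList h, ((main ρ (indec_of_inList h)).out 2 0).1 h⟩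
  tfae_finish

end Pool.Agent.Helper69.BQ
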