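import Mathlib
import Pool.Agent.Helper25.BiqFamily
import Pool.Agent.Helper69.BQ.Basic

/-!
# The upper bound (from helper25's `family_bound`)
-/

namespace Pool.Agent.Helper69.BQ

open Module NumberField Pool.Agent.Helper25.Biq Pool.Agent.Helper25

/-- The equivariance relation between `ρ` on `V` and the Galois action on the 2-torsion of the
class group. -/
def Equivariant {V K : Type} [AddCommGroup V] [Module (ZMod 2) V] [Field K] [NumberField K]
    (φ : C22 ≃* (K ≃ₐ[ℚ] K)) (ρ : Representation (ZMod 2) C22 V) (i : V →ₗ[ZMod 2] TT K) : Prop :=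
  ∀ g v, i (ρ g v) = act (φ g) (i v)

section transport

variable {V K : Type} [AddCommGroup V] [Module (ZMod 2) V] [Field K] [NumberField K]
  {φ : C22 ≃* (K ≃ₐ[ℚ] K)} {ρ : Representation (ZMod 2) C22 V} {i : V →ₗ[ZMod 2] TT K}

lemma stable_range (hi : Equivariant φ ρ i) : Stable (LinearMap.range i) := by
  rintro g _ ⟨v, rfl⟩
  refine ⟨ρ (φ.symm g) v, ?_⟩
  rw [hi, φ.apply_symm_apply]

lemma indecSub_range (hind : Indecomposable ρ) (hi : Equivariant φ ρ i)
    (hinj : Function.Injective i) : IndecSub (LinearMap.range i) := by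
  refine ⟨?_, ?_⟩
  · intro h0
    obtain ⟨v, hv⟩ := @exists_ne V hind.1 0
    apply hv
    apply hinj
    rw [map_zero]
    have : i v ∈ LinearMap.range i := ⟨v, rfl⟩
    rw [h0] at this
    exact (Submodule.mem_bot _).1 this
  · intro p q hp hq hpq hsup
    have hpL : p ≤ LinearMap.range i := hsup ▸ le_sup_left
    have hqL : q ≤ LinearMap.range i := hsup ▸ le_sup_right
    have mp : (p.comap i).map i = p := by
      rw [Submodule.map_comap_eq, inf_eq_right]; exact hpL
    have mq : (q.comap i).map i = q := by
      rw [Submodule.map_comap_eq, inf_eq_right]; exact hqL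
    have hst : ∀ s : Submodule (ZMod 2) (TT K), Stable s → ∀ g, ∀ v ∈ s.comap i,
        ρ g v ∈ s.comap i := by
      intro s hs g v hv
      show i (ρ g v) ∈ s
      rw [hi]
      exact hs _ _ hv
    rcases hind.2 (p.comap i) (q.comap i) (hst p hp) (hst q hq) (by
      constructor
      · rw [disjoint_iff, ← Submodule.comap_inf, hpq, Submodule.comap_bot,
          LinearMap.ker_eq_bot.2 hinj]
      · rw [codisjoint_iff]
        apply Submodule.map_injective_of_injective hinj
        rw [Submodule.map_sup, mp, mq, hsup, Submodule.map_top]) with h1 | h1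
    · left; rw [← mp, h1, Submodule.map_bot]
    · right; rw [← mq, h1, Submodule.map_bot]

lemma map_range (hi : Equivariant φ ρ i) (g : C22) :
    (LinearMap.range (LinearMap.id + ρ g)).map i = (LinearMap.range i).map (X (φ g)) := by
  ext x
  constructor
  · rintro ⟨_, ⟨v, rfl⟩, rfl⟩
    refine ⟨i v, ⟨v, rfl⟩, ?_⟩
    rw [X_apply, LinearMap.add_apply, LinearMap.id_apply, map_add, hi]
  · rintro ⟨_, ⟨v, rfl⟩, rfl⟩
    refine ⟨_, ⟨v, rfl⟩, ?_⟩
    rw [X_apply, LinearMap.add_apply, LinearMap.id_apply, map_add, hi]

lemma map_core (hi : Equivariant φ ρ i) (hinj : Function.Injective i) :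
    (repCore ρ).map i = core (LinearMap.range i) := by
  apply le_antisymm
  · apply le_iInf
    rintro ⟨g, hg⟩
    have h1 : φ.symm g ≠ 1 := by
      intro h1
      apply hg
      rw [← φ.apply_symm_apply g, h1, map_one]
    have h2 : repCore ρ ≤ LinearMap.range (LinearMap.id + ρ (φ.symm g)) :=
      iInf_le (fun g : {g : C22 // g ≠ 1} => LinearMap.range (LinearMap.id + ρ g)) ⟨_, h1⟩
    have h3 := Submodule.map_mono (f := i) h2
    rw [map_range hi, φ.apply_symm_apply] at h3
    exact h3
  · intro y hy
    have hy' : ∀ g : C22, g ≠ 1 → y ∈ (LinearMap.range (LinearMap.id + ρ g)).map i := by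
      intro g hg
      rw [map_range hi]
      have h1 : φ g ≠ 1 := by
        intro h1
        apply hg
        rw [← φ.symm_apply_apply g, h1, map_one]
      exact (Submodule.mem_iInf _).1 hy ⟨φ g, h1⟩
    have hne : (Multiplicative.ofAdd ((1, 0) : ZMod 2 × ZMod 2) : C22) ≠ 1 := by decide
    obtain ⟨u, hu, rfl⟩ := hy' _ hne
    refine ⟨u, ?_, rfl⟩
    apply (Submodule.mem_iInf _).2
    rintro ⟨g, hg⟩
    obtain ⟨u', hu', huu⟩ := hy' g hg
    rw [← hinj huu]
    exact hu'

lemma finrank_map_inj (hinj : Function.Injective i) (s : Submodule (ZMod 2) V) :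
    finrank (ZMod 2) (s.map i) = finrank (ZMod 2) s := by
  have hfd : FiniteDimensional (ZMod 2) V := FiniteDimensional.of_injective i hinj
  have h1 := Kron.finrank_map_add i s
  rw [LinearMap.ker_eq_bot.2 hinj, inf_bot_eq, finrank_bot] at h1
  omega

end transport

/-- Turning a group homomorphism to the class group into a linear map to its 2-torsion. -/
lemma exists_lin {W K : Type} [AddCommGroup W] [Module (ZMod 2) W] [Field K] [NumberField K]
    (i : Multiplicative W →* ClassGroup (𝓞 K)) :
    ∃ i' : W →ₗ[ZMod 2] TT K, ∀ v, (i' v).val = i (Multiplicative.ofAdd v) := by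
  have h2 : ∀ v : W, i (Multiplicative.ofAdd v) ^ 2 = 1 := by
    intro v
    rw [← map_pow, ← ofAdd_nsmul]
    have : (2 : ℕ) • v = 0 := by
      rw [← Nat.cast_smul_eq_nsmul (ZMod 2)]
      have : ((2 : ℕ) : ZMod 2) = 0 := by decide
      rw [this, zero_smul]
    rw [this, ofAdd_zero, map_one]
  refine ⟨AddMonoidHom.toZModLinearMap 2
    { toFun := fun v => TT.mk (i (Multiplicative.ofAdd v)) (h2 v)
      map_zero' := TT.val_injective (by rw [TT.val_mk, TT.val_zero, ofAdd_zero, map_one])
      map_add' := fun u v => TT.val_injective (by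
        rw [TT.val_mk, TT.val_add, TT.val_mk, TT.val_mk, ofAdd_add, map_mul]) }, ?_⟩
  intro v
  exact TT.val_mk _ _

/-- The upper bound: an indecomposable module that arises satisfies the norm relation and has a
core of dimension at most five. -/
theorem arises_bound {V : Type} [AddCommGroup V] [Module (ZMod 2) V]
    {ρ : Representation (ZMod 2) C22 V} (hρ : Indecomposable ρ) (ha : Arises ρ) :
    (∀ v, ∑ g : C22, ρ g v = 0) ∧ finrank (ZMod 2) (repCore ρ) ≤ 5 := by
  obtain ⟨K, _, _, _, φ, i, N, hinj, hi, -, -, -⟩ := ha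
  have hKF : IsKleinFour (K ≃ₐ[ℚ] K) :=
    { card_four := by rw [← Nat.card_congr φ.toEquiv]; exact IsKleinFour.card_four
      exponent_two := by
        rw [← Monoid.exponent_eq_of_mulEquiv φ]; exact IsKleinFour.exponent_two }
  obtain ⟨i', hi'⟩ := exists_lin i
  have hinj' : Function.Injective i' := by
    intro u v huv
    have h1 : (i' u).val = (i' v).val := by rw [huv]
    rw [hi', hi'] at h1
    exact Multiplicative.ofAdd.injective (hinj h1)
  have heq : Equivariant φ ρ i' := by
    intro g v
    apply TT.val_injective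
    rw [hi', hi, val_act, hi']
    rfl
  constructor
  · intro v
    apply hinj'
    obtain ⟨σ, τ, ρ', h⟩ := exists_V4 (K := K)
    have h1 : ∑ g : C22, act (φ g) (i' v) = 0 := by
      have h2 := sum_act h (i' v)
      rw [← h2]
      exact Equiv.sum_comp φ.toEquiv (fun g => act g (i' v))
    rw [map_sum, map_zero, ← h1]
    exact Finset.sum_congr rfl fun g _ => heq g v
  · obtain ⟨-, h5, -⟩ := family_bound K (Fin 1) (fun _ => LinearMap.range i')
      (fun _ => stable_range heq) (fun _ => indecSub_range hρ heq hinj')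
      (by
        intro j
        have : (⨆ k, ⨆ _ : k ≠ j, LinearMap.range i') = ⊥ := by
          rw [iSup_eq_bot]
          intro k
          rw [iSup_eq_bot]
          intro hk
          exact absurd (Subsingleton.elim k j) hk
        rw [this]
        exact disjoint_bot_right)
    rw [Fin.sum_univ_one, ← map_core heq hinj', finrank_map_inj hinj'] at h5
    exact h5

end Pool.Agent.Helper69.BQ
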